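import Mathlib

namespace Pool.Agent.Lib.MP_d7aa4b_an

open Finset

variable {ι : Type*} [Fintype ι] [DecidableEq ι]

/-- restriction of a vector to a set -/
noncomputable def restr (A : Finset ι) (u : ι → ℝ) : ι → ℝ := fun i => if i ∈ A then u i else 0

/-- flat vector of height `s` on `A` -/
noncomputable def flat (A : Finset ι) (s : ℝ) : ι → ℝ := fun i => if i ∈ A then s else 0

omit [Fintype ι] in
lemma flat_smul (A : Finset ι) (r s : ℝ) : flat A (r * s) = r • flat A s := by
  funext i
  simp only [flat, Pi.smul_apply, smul_eq_mul]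
  split_ifs <;> simp

omit [Fintype ι] in
lemma box_bound_aux (N : Seminorm ℝ (ι → ℝ)) (s M : ℝ) (hs : 0 < s) (u : ι → ℝ) (A : Finset ι) :
    ∀ w : ι → ℝ, (∀ i ∈ A, 0 ≤ u i ∧ u i ≤ s) → (∀ B ⊆ A, N (w + flat B s) ≤ M) →
      N (w + restr A u) ≤ M := by
  induction A using Finset.induction_on with
  | empty =>
    intro w _ h
    have := h ∅ (by simp)
    have e1 : (flat ∅ s : ι → ℝ) = 0 := by funext i; simp [flat]
    have e2 : (restr ∅ u : ι → ℝ) = 0 := by funext i; simp [restr]
    rw [e1] at this
    rw [e2]
    exact this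
  | insert a A ha ih =>
    intro w hu h
    have hua := hu a (Finset.mem_insert_self a A)
    have huA : ∀ i ∈ A, 0 ≤ u i ∧ u i ≤ s := fun i hi => hu i (Finset.mem_insert_of_mem hi)
    have h1 : N (w + restr A u) ≤ M := by
      apply ih w huA
      intro B hB
      exact h B (hB.trans (Finset.subset_insert a A))
    have h2 : N ((w + flat {a} s) + restr A u) ≤ M := by
      apply ih (w + flat {a} s) huA
      intro B hB
      have haB : a ∉ B := fun hh => ha (hB hh)
      have : w + flat {a} s + flat B s = w + flat (insert a B) s := by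
        funext i
        simp only [flat, Pi.add_apply, Finset.mem_singleton, Finset.mem_insert]
        by_cases hia : i = a
        · subst hia; simp [haB]
        · simp [hia]
      rw [this]
      exact h _ (Finset.insert_subset_insert a hB)
    set θ := u a / s with hθ
    have hθ0 : 0 ≤ θ := div_nonneg hua.1 hs.le
    have hθ1 : θ ≤ 1 := (div_le_one hs).2 hua.2
    have hθs : θ * s = u a := by rw [hθ]; field_simp
    have key : w + restr (insert a A) u
        = (1 - θ) • (w + restr A u) + θ • ((w + flat {a} s) + restr A u) := by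
      funext i
      simp only [restr, flat, Pi.add_apply, Pi.smul_apply, smul_eq_mul, Finset.mem_singleton,
        Finset.mem_insert]
      by_cases hia : i = a
      · subst hia
        simp only [true_or, if_true, ha, if_false]
        rw [← hθs]; ring
      · simp only [hia, false_or, if_false]; ring
    rw [key]
    calc N ((1 - θ) • (w + restr A u) + θ • ((w + flat {a} s) + restr A u))
        ≤ N ((1 - θ) • (w + restr A u)) + N (θ • ((w + flat {a} s) + restr A u)) :=
          map_add_le_add N _ _
      _ = (1 - θ) * N (w + restr A u) + θ * N ((w + flat {a} s) + restr A u) := by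
          rw [map_smul_eq_mul, map_smul_eq_mul, Real.norm_of_nonneg (by linarith),
            Real.norm_of_nonneg hθ0]
      _ ≤ (1 - θ) * M + θ * M := by
          have := mul_le_mul_of_nonneg_left h1 (by linarith : (0:ℝ) ≤ 1 - θ)
          have := mul_le_mul_of_nonneg_left h2 hθ0
          linarith
      _ = M := by ring

omit [Fintype ι] in
/-- convexity: a nonnegative vector of height at most `s` on `A` is bounded by flat ones -/
lemma box_bound (N : Seminorm ℝ (ι → ℝ)) (s M : ℝ) (hs : 0 < s) (u : ι → ℝ) (A : Finset ι)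
    (hu : ∀ i ∈ A, 0 ≤ u i ∧ u i ≤ s) (h : ∀ B ⊆ A, N (flat B s) ≤ M) :
    N (restr A u) ≤ M := by
  have := box_bound_aux N s M hs u A 0 hu (by simpa using h)
  simpa using this

/-- The working hypotheses on the seminorm. -/
structure Hyp (N : Seminorm ℝ (ι → ℝ)) (K c : ℝ) : Prop where
  K1 : 1 ≤ K
  c1 : 1 ≤ c
  coord : ∀ u : ι → ℝ, ∀ i, |u i| ≤ c * N u
  single : ∀ i, N (flat {i} 1) ≤ c
  tb : ∀ u : ι → ℝ, (∀ i, 0 ≤ u i) → ∀ P B : Finset ι, Disjoint P B → B.Nonempty →
    (∀ i ∈ P, ∀ j, j ∉ P → u j ≤ u i) → (∀ i ∈ B, ∀ j, j ∉ P → j ∉ B → u j ≤ u i) →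
    ∃ ρ : ι → ℝ, (∀ i ∈ P, ρ i = 1) ∧ (∀ i ∈ B, 0 ≤ ρ i ∧ ρ i ≤ 1) ∧
      (∀ i, i ∉ P → i ∉ B → ρ i = 0) ∧
      (B.card : ℝ) * N (fun i => ρ i * u i) ≤ K * (2 * P.card + B.card) * N u
  fl : ∀ u : ι → ℝ, (∀ i, 0 ≤ u i) → ∀ (A : Finset ι) (s : ℝ), (∀ i ∈ A, u i = s) →
    (∀ i, u i ≤ s) → N (flat A s) ≤ K * N u

omit [Fintype ι] in
/-- band lemma -/
lemma band {N : Seminorm ℝ (ι → ℝ)} {K c : ℝ} (H : Hyp N K c) (u : ι → ℝ) (hu : ∀ i, 0 ≤ u i)
    (s : ℝ) (hs : 0 < s) (hus : ∀ i, u i ≤ s) (A : Finset ι)
    (hA : ∀ i ∈ A, (1 - 1 / (2 * K)) * s ≤ u i) : N (flat A s) ≤ 2 * K * N u := by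
  classical
  have hK := H.K1
  set Θ : ℝ := (A.powerset).sup' ⟨∅, by simp⟩ (fun B => N (flat B s)) with hΘ
  have hle : ∀ B ⊆ A, N (flat B s) ≤ Θ := by
    intro B hB
    exact Finset.le_sup' (fun B => N (flat B s)) (Finset.mem_powerset.2 hB)
  obtain ⟨A0, hA0, hA0eq⟩ := Finset.exists_mem_eq_sup' (s := A.powerset) ⟨∅, by simp⟩
    (fun B => N (flat B s))
  rw [Finset.mem_powerset] at hA0
  set η : ℝ := 1 / (2 * K) with hη
  have hη0 : 0 < η := by positivity
  set v : ι → ℝ := fun i => if i ∈ A then s else u i with hv
  have hvu : v = u + restr A (fun i => s - u i) := by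
    funext i
    simp only [hv, restr, Pi.add_apply]
    split_ifs <;> ring
  have h1 : N (restr A (fun i => s - u i)) ≤ η * Θ := by
    apply box_bound N (η * s) (η * Θ) (by positivity)
    · intro i hi
      have := hA i hi
      have := hus i
      constructor
      · linarith
      · nlinarith
    · intro B hB
      rw [flat_smul, map_smul_eq_mul, Real.norm_of_nonneg hη0.le]
      exact mul_le_mul_of_nonneg_left (hle B hB) hη0.le
  have h2 : N (flat A0 s) ≤ K * N v := by
    apply H.fl v
    · intro i; simp only [hv]; split_ifs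
      · exact hs.le
      · exact hu i
    · intro i hi; simp only [hv]; rw [if_pos (hA0 hi)]
    · intro i; simp only [hv]; split_ifs
      · exact le_rfl
      · exact hus i
  have h3 : N v ≤ N u + η * Θ := by
    rw [hvu]
    exact (map_add_le_add N _ _).trans (by linarith)
  have hΘ2 : Θ = N (flat A0 s) := by rw [hΘ, hA0eq]
  have h4 : Θ ≤ K * (N u + η * Θ) := by
    calc Θ = N (flat A0 s) := hΘ2
      _ ≤ K * N v := h2
      _ ≤ K * (N u + η * Θ) := by gcongr
  have h5 : K * η = 1 / 2 := by rw [hη]; field_simp
  have h5' : K * (N u + η * Θ) = K * N u + (K * η) * Θ := by ring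
  rw [h5', h5] at h4
  have h6 : Θ ≤ 2 * K * N u := by linarith
  exact (hle A (le_refl A)).trans h6

/-- constants of near unconditionality -/
noncomputable def phi (K : ℝ) : ℕ → ℝ
  | 0 => K
  | (n + 1) => 2 * K + 2 * (1 + 2 * K) * phi K n

lemma phi_nonneg {K : ℝ} (hK : 1 ≤ K) (n : ℕ) : 0 ≤ phi K n := by
  induction n with
  | zero => simp [phi]; linarith
  | succ n ih => simp only [phi]; positivity

lemma nu_aux {K c : ℝ} (n : ℕ) : ∀ {N : Seminorm ℝ (ι → ℝ)} (_ : Hyp N K c) (u : ι → ℝ)
    (_ : ∀ i, 0 ≤ u i) (s : ℝ) (_ : 0 < s) (_ : ∀ i, u i ≤ s) (A : Finset ι)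
    (_ : ∀ i ∈ A, (1 - 1 / (2 * K)) ^ n * s ≤ u i),
    N (flat A s) ≤ phi K n * N u := by
  classical
  induction n with
  | zero =>
    intro N H u hu s hs hus A hA
    simp only [phi]
    apply H.fl u hu A s _ hus
    intro i hi
    have := hA i hi
    have := hus i
    simp at *
    linarith
  | succ n ih =>
    intro N H u hu s hs hus A hA
    have hK := H.K1
    set q : ℝ := 1 - 1 / (2 * K) with hq
    have hq2 : 1 / 2 ≤ q := by
      rw [hq]
      have : 1 / (2 * K) ≤ 1 / 2 := by
        apply one_div_le_one_div_of_le (by norm_num); linarith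
      linarith
    have hq0 : 0 < q := by linarith
    -- the top band
    set B : Finset ι := Finset.univ.filter (fun i => q * s ≤ u i) with hB
    set A1 : Finset ι := A.filter (fun i => q * s ≤ u i) with hA1
    set A2 : Finset ι := A.filter (fun i => ¬ q * s ≤ u i) with hA2
    have hband : ∀ C ⊆ B, N (flat C s) ≤ 2 * K * N u := by
      intro C hC
      apply band H u hu s hs hus C
      intro i hi
      have := hC hi
      rw [hB, Finset.mem_filter] at this
      exact this.2
    have h1 : N (flat A1 s) ≤ 2 * K * N u := by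
      apply hband
      intro i hi
      rw [hA1, Finset.mem_filter] at hi
      rw [hB, Finset.mem_filter]
      exact ⟨Finset.mem_univ _, hi.2⟩
    -- remove the top band
    set u' : ι → ℝ := fun i => if i ∈ B then 0 else u i with hu'
    have hu'eq : u' = u - restr B u := by
      funext i
      simp only [hu', restr, Pi.sub_apply]
      split_ifs <;> ring
    have h2 : N (restr B u) ≤ 2 * K * N u := by
      apply box_bound N s _ hs u B _ hband
      intro i _
      exact ⟨hu i, hus i⟩
    have h3 : N u' ≤ (1 + 2 * K) * N u := by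
      rw [hu'eq]
      calc N (u - restr B u) ≤ N u + N (restr B u) := map_sub_le_add N _ _
        _ ≤ _ := by linarith
    have h4 : N (flat A2 (q * s)) ≤ phi K n * N u' := by
      apply ih H u' _ (q * s) (by positivity) _ A2
      · intro i hi
        rw [hA2, Finset.mem_filter] at hi
        have hiB : i ∉ B := by
          rw [hB, Finset.mem_filter]; push Not; intro _; exact not_le.1 hi.2
        simp only [hu', if_neg hiB]
        have := hA i hi.1
        calc q ^ n * (q * s) = q ^ (n + 1) * s := by ring
          _ ≤ u i := this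
      · intro i; simp only [hu']; split_ifs
        · exact le_rfl
        · exact hu i
      · intro i; simp only [hu']; split_ifs with h
        · positivity
        · rw [hB, Finset.mem_filter] at h
          push Not at h
          exact (h (Finset.mem_univ _)).le
    rw [flat_smul, map_smul_eq_mul, Real.norm_of_nonneg hq0.le] at h4
    have h5 : N (flat A2 s) ≤ 2 * (phi K n * N u') := by
      have hN : 0 ≤ N (flat A2 s) := apply_nonneg N _
      nlinarith
    have h6 : flat A s
        = flat A1 s + flat A2 s := by
      funext i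
      simp only [flat, Pi.add_apply, hA1, hA2, Finset.mem_filter]
      by_cases hi : i ∈ A <;> by_cases hi2 : q * s ≤ u i <;> simp [hi, hi2]
    rw [h6]
    have hphi := phi_nonneg hK n
    calc N (flat A1 s + flat A2 s)
        ≤ N (flat A1 s) + N (flat A2 s) := map_add_le_add N _ _
      _ ≤ 2 * K * N u + 2 * (phi K n * ((1 + 2 * K) * N u)) := by
          have : phi K n * N u' ≤ phi K n * ((1 + 2 * K) * N u) := by gcongr
          linarith
      _ = phi K (n + 1) * N u := by simp only [phi]; ring


omit [Fintype ι] in
/-- Abel summation -/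
lemma abel (N : Seminorm ℝ (ι → ℝ)) (w u : ι → ℝ) (M : ℝ) (A : Finset ι) :
    ∀ (W : ℝ) (x : ι → ℝ), 0 ≤ W → (∀ i ∈ A, 0 ≤ w i ∧ w i ≤ W) →
    (∀ T ⊆ A, (∀ i ∈ T, ∀ j ∈ A, j ∉ T → w j ≤ w i) → N (restr T u + x) ≤ M) →
    N (restr A (fun i => w i * u i) + W • x) ≤ W * M := by
  classical
  induction A using Finset.induction_on_max_value w with
  | empty =>
    intro W x hW _ h
    have h1 := h ∅ (by simp) (by simp)
    have e1 : ∀ g : ι → ℝ, (restr ∅ g : ι → ℝ) = 0 := by intro g; funext i; simp [restr]
    rw [e1, zero_add] at h1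
    rw [e1, zero_add, map_smul_eq_mul, Real.norm_of_nonneg hW]
    exact mul_le_mul_of_nonneg_left h1 hW
  | insert a s ha hmax ih =>
    intro W x hW hw h
    have hwa := hw a (Finset.mem_insert_self a s)
    have e1 : (restr ∅ u : ι → ℝ) = 0 := by funext i; simp [restr]
    have hx : N x ≤ M := by
      have := h ∅ (by simp) (by simp)
      rwa [e1, zero_add] at this
    have key : restr (insert a s) (fun i => w i * u i) + W • x
        = (restr s (fun i => w i * u i) + w a • (restr {a} u + x)) + (W - w a) • x := by
      funext i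
      simp only [restr, Pi.add_apply, Pi.smul_apply, smul_eq_mul, Finset.mem_insert,
        Finset.mem_singleton]
      by_cases hia : i = a
      · subst hia; simp only [true_or, if_true, ha, if_false]; ring
      · simp only [hia, false_or, if_false]; ring
    have h1 : N (restr s (fun i => w i * u i) + w a • (restr {a} u + x)) ≤ w a * M := by
      apply ih (w a) (restr {a} u + x) hwa.1
      · intro i hi
        exact ⟨(hw i (Finset.mem_insert_of_mem hi)).1, hmax i hi⟩
      · intro T hT hTc
        have haT : a ∉ T := fun hh => ha (hT hh)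
        have : restr T u + (restr {a} u + x) = restr (insert a T) u + x := by
          funext i
          simp only [restr, Pi.add_apply, Finset.mem_insert, Finset.mem_singleton]
          by_cases hia : i = a
          · subst hia; simp [haT]
          · simp [hia]
        rw [this]
        apply h _ (Finset.insert_subset_insert a hT)
        intro i hi j hj hjT
        rw [Finset.mem_insert] at hi hj hjT
        push Not at hjT
        rcases hj with hj | hj
        · exact absurd hj hjT.1
        · rcases hi with hi | hi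
          · subst hi; exact hmax j hj
          · exact hTc i hi j hj hjT.2
    rw [key]
    calc N ((restr s (fun i => w i * u i) + w a • (restr {a} u + x)) + (W - w a) • x)
        ≤ N (restr s (fun i => w i * u i) + w a • (restr {a} u + x)) + N ((W - w a) • x) :=
          map_add_le_add N _ _
      _ ≤ w a * M + (W - w a) * M := by
          rw [map_smul_eq_mul, Real.norm_of_nonneg (by linarith)]
          have := mul_le_mul_of_nonneg_left hx (by linarith : (0:ℝ) ≤ W - w a)
          linarith
      _ = W * M := by ring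

omit [Fintype ι] in
/-- truncation -/
lemma trunc (N : Seminorm ℝ (ι → ℝ)) (L : ℝ) (hL0 : 0 ≤ L)
    (hL : ∀ u : ι → ℝ, (∀ i, 0 ≤ u i) → ∀ A : Finset ι, (∀ i ∈ A, ∀ j, j ∉ A → u j ≤ u i) →
      N (restr A u) ≤ L * N u)
    (u : ι → ℝ) (hu : ∀ i, 0 ≤ u i) (A : Finset ι) (hA : ∀ i ∈ A, ∀ j, j ∉ A → u j ≤ u i)
    (R t : ℝ) (hR : 0 < R) (ht : 0 < t) (hRt : ∀ i ∈ A, R * t ≤ u i) (E : Finset ι) (hE : E ⊆ A) :
    N (flat E t) ≤ (2 / R) * L * L * N u := by
  classical
  have hpos : ∀ i ∈ A, 0 < u i := fun i hi => lt_of_lt_of_le (by positivity) (hRt i hi)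
  have h1 : N (flat A t) ≤ (2 / R) * L * N u := by
    have h := abel N (fun i => t / u i) u (2 * L * N u) A (1 / R) 0 (by positivity)
      (by
        intro i hi
        have := hpos i hi
        refine ⟨by positivity, ?_⟩
        show t / u i ≤ 1 / R
        rw [div_le_div_iff₀ this hR]
        have := hRt i hi
        linarith)
      (by
        intro T hT hTc
        have e : restr T u + 0 = restr A u - restr (A \ T) u := by
          funext i
          simp only [restr, Pi.add_apply, Pi.sub_apply, Finset.mem_sdiff, Pi.zero_apply]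
          by_cases h1 : i ∈ T
          · simp [h1, hT h1]
          · by_cases h2 : i ∈ A <;> simp [h1, h2]
        rw [e]
        have hg : ∀ i ∈ A \ T, ∀ j, j ∉ A \ T → u j ≤ u i := by
          intro i hi j hj
          rw [Finset.mem_sdiff] at hi hj
          by_cases hjA : j ∈ A
          · have hjT : j ∈ T := by by_contra hh; exact hj ⟨hjA, hh⟩
            have h3 := hTc j hjT i hi.1 hi.2
            rw [div_le_div_iff₀ (hpos i hi.1) (hpos j hjA)] at h3
            exact le_of_mul_le_mul_left h3 ht
          · exact hA i hi.1 j hjA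
        calc N (restr A u - restr (A \ T) u) ≤ N (restr A u) + N (restr (A \ T) u) :=
              map_sub_le_add N _ _
          _ ≤ L * N u + L * N u := add_le_add (hL u hu A hA) (hL u hu _ hg)
          _ = 2 * L * N u := by ring)
    have e2 : restr A (fun i => t / u i * u i) + (1 / R) • (0 : ι → ℝ) = flat A t := by
      funext i
      simp only [restr, flat, Pi.add_apply, Pi.smul_apply, Pi.zero_apply, smul_zero, add_zero]
      by_cases h2 : i ∈ A
      · simp only [h2, if_true]
        have := hpos i h2
        field_simp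
      · simp [h2]
    rw [e2] at h
    calc N (flat A t) ≤ 1 / R * (2 * L * N u) := h
      _ = (2 / R) * L * N u := by ring
  have e3 : flat E t = restr E (flat A t) := by
    funext i
    simp only [restr, flat]
    by_cases h2 : i ∈ E
    · simp [h2, hE h2]
    · simp [h2]
  rw [e3]
  calc N (restr E (flat A t)) ≤ L * N (flat A t) := by
        apply hL
        · intro i; simp only [flat]; split_ifs
          · exact ht.le
          · exact le_rfl
        · intro i hi j _
          simp only [flat, hE hi, if_true]
          split_ifs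
          · exact le_rfl
          · exact ht.le
    _ ≤ L * ((2 / R) * L * N u) := mul_le_mul_of_nonneg_left h1 hL0
    _ = (2 / R) * L * L * N u := by ring

omit [Fintype ι] in
lemma split_top (f : ι → ℝ) (A : Finset ι) (k : ℕ) (hk : k ≤ A.card) :
    ∃ P ⊆ A, P.card = k ∧ ∀ i ∈ P, ∀ j ∈ A, j ∉ P → f j ≤ f i := by
  classical
  induction k with
  | zero => exact ⟨∅, by simp, by simp, by simp⟩
  | succ k ih =>
    obtain ⟨P, hPA, hPk, hP⟩ := ih (by omega)
    have hne : (A \ P).Nonempty := by
      rw [← Finset.card_pos, Finset.card_sdiff_of_subset hPA]; omega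
    obtain ⟨a, ha, hmax⟩ := Finset.exists_max_image (A \ P) f hne
    rw [Finset.mem_sdiff] at ha
    refine ⟨insert a P, ?_, ?_, ?_⟩
    · intro i hi
      rw [Finset.mem_insert] at hi
      rcases hi with hi | hi
      · rw [hi]; exact ha.1
      · exact hPA hi
    · rw [Finset.card_insert_of_notMem ha.2, hPk]
    · intro i hi j hj hjP
      rw [Finset.mem_insert] at hi hjP
      push Not at hjP
      rcases hi with hi | hi
      · subst hi
        exact hmax j (Finset.mem_sdiff.2 ⟨hj, hjP.2⟩)
      · exact hP i hi j hj hjP.2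

omit [Fintype ι] in
lemma restr_card {N : Seminorm ℝ (ι → ℝ)} {K c : ℝ} (H : Hyp N K c) (u : ι → ℝ)
    (hu : ∀ i, 0 ≤ u i) (A : Finset ι) : N (restr A u) ≤ A.card * (c * c) * N u := by
  classical
  induction A using Finset.induction_on with
  | empty =>
    have e1 : (restr ∅ u : ι → ℝ) = 0 := by funext i; simp [restr]
    rw [e1]; simp
  | insert a s ha ih =>
    have e : restr (insert a s) u = restr s u + (u a) • flat {a} 1 := by
      funext i
      simp only [restr, flat, Pi.add_apply, Pi.smul_apply, smul_eq_mul, Finset.mem_insert,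
        Finset.mem_singleton]
      by_cases hia : i = a
      · subst hia; simp [ha]
      · simp [hia]
    rw [e, Finset.card_insert_of_notMem ha]
    have hN : 0 ≤ N u := apply_nonneg N u
    have hc := H.c1
    calc N (restr s u + (u a) • flat {a} 1) ≤ N (restr s u) + N ((u a) • flat {a} 1) :=
          map_add_le_add N _ _
      _ = N (restr s u) + u a * N (flat {a} 1) := by
          rw [map_smul_eq_mul, Real.norm_of_nonneg (hu a)]
      _ ≤ s.card * (c * c) * N u + (c * N u) * c := by
          have h1 := H.coord u a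
          rw [abs_of_nonneg (hu a)] at h1
          have h2 := H.single a
          have h3 : 0 ≤ N (flat {a} 1) := apply_nonneg N _
          have h4 : u a * N (flat {a} 1) ≤ (c * N u) * c := by
            apply mul_le_mul h1 h2 h3 (by positivity)
          linarith
      _ = (↑(s.card + 1)) * (c * c) * N u := by push_cast; ring

end Pool.Agent.Lib.MP_d7aa4b_an
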