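import Mathlib

/-!
Definitions for problem MP_d7aa4b_an: bases of Banach spaces, greedy orderings,
Cesaro and de la Vallee-Poussin means of the greedy algorithm.
-/

namespace Pool.Agent.Lib.MP_d7aa4b_an

open Filter Topology

variable {𝕜 : Type*} [RCLike 𝕜] {X : Type*} [NormedAddCommGroup X] [NormedSpace 𝕜 X]

/-- `e` is a basis of `X` with biorthogonal functionals `f`: the linear span of `e` is dense,
`f i (e j) = δ_ij`, and both sequences are bounded in norm. -/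
structure IsBasis (e : ℕ → X) (f : ℕ → X →L[𝕜] 𝕜) : Prop where
  dense_span : Dense (Submodule.span 𝕜 (Set.range e) : Set X)
  biorthogonal : ∀ i j, f i (e j) = if i = j then 1 else 0
  bounded_vectors : ∃ C : ℝ, ∀ n, ‖e n‖ ≤ C
  bounded_functionals : ∃ C : ℝ, ∀ n, ‖f n‖ ≤ C

/-- `k` is a greedy ordering for `x`: an injective sequence whose range contains the support
of `x`, along which the moduli of the coefficients of `x` do not increase. -/
structure IsGreedyOrdering (f : ℕ → X →L[𝕜] 𝕜) (x : X) (k : ℕ → ℕ) : Prop where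
  injective : Function.Injective k
  support_subset : ∀ n, f n x ≠ 0 → n ∈ Set.range k
  antitone : ∀ i j, i < j → ‖f (k j) x‖ ≤ ‖f (k i) x‖

/-- The greedy sum `G_m(x)`: the sum of the first `m` terms in the ordering `k`. -/
noncomputable def greedySum (e : ℕ → X) (f : ℕ → X →L[𝕜] 𝕜) (x : X) (k : ℕ → ℕ) (m : ℕ) : X :=
  ∑ j ∈ Finset.range m, f (k j) x • e (k j)

/-- The Cesaro mean `C_m(x) = (1/m) ∑_{n=1}^m G_n(x)`. -/
noncomputable def cesaroMean (e : ℕ → X) (f : ℕ → X →L[𝕜] 𝕜) (x : X) (k : ℕ → ℕ) (m : ℕ) : X :=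
  ((m : 𝕜)⁻¹) • ∑ n ∈ Finset.range m, greedySum e f x k (n + 1)

/-- The de la Vallee-Poussin mean `2 C_{2m}(x) - C_m(x)`. -/
noncomputable def vpMean (e : ℕ → X) (f : ℕ → X →L[𝕜] 𝕜) (x : X) (k : ℕ → ℕ) (m : ℕ) : X :=
  (2 : 𝕜) • cesaroMean e f x k (2 * m) - cesaroMean e f x k m

/-- Quasi-greedy basis. -/
def IsQuasiGreedy (e : ℕ → X) (f : ℕ → X →L[𝕜] 𝕜) : Prop :=
  ∃ C : ℝ, ∀ (x : X) (k : ℕ → ℕ), IsGreedyOrdering f x k → ∀ m : ℕ,
    ‖greedySum e f x k m‖ ≤ C * ‖x‖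

/-- Cesaro quasi-greedy (CQG) basis. -/
def IsCesaroQuasiGreedy (e : ℕ → X) (f : ℕ → X →L[𝕜] 𝕜) : Prop :=
  ∀ (x : X) (k : ℕ → ℕ), IsGreedyOrdering f x k →
    Tendsto (fun m => cesaroMean e f x k m) atTop (𝓝 x)

/-- De la Vallee-Poussin quasi-greedy (VPQG) basis. -/
def IsVPQuasiGreedy (e : ℕ → X) (f : ℕ → X →L[𝕜] 𝕜) : Prop :=
  ∀ (x : X) (k : ℕ → ℕ), IsGreedyOrdering f x k →
    Tendsto (fun m => vpMean e f x k m) atTop (𝓝 x)

end Pool.Agent.Lib.MP_d7aa4b_an
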