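import Pool.Agent.Lib.MP_d7aa4b_an.Step

namespace Pool.Agent.Lib.MP_d7aa4b_an

open Finset

variable {ι : Type*} [Fintype ι] [DecidableEq ι]

lemma step {N : Seminorm ℝ (ι → ℝ)} {K c : ℝ} (H : Hyp N K c) (S : ℕ) (r : ℕ)
    (hr : (1 - 1 / (2 * K)) ^ r ≤ 1 / 2)
    (hL : ∀ u : ι → ℝ, (∀ i, 0 ≤ u i) → ∀ A : Finset ι, (∀ i ∈ A, ∀ j, j ∉ A → u j ≤ u i) →
      N (restr A u) ≤ 2 ^ S * N u)
    (u : ι → ℝ) (hu : ∀ i, 0 ≤ u i) (A : Finset ι) (hA : ∀ i ∈ A, ∀ j, j ∉ A → u j ≤ u i) :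
    N (restr A u) ≤ QC K c (phi K r) S * N u := by
  classical
  have hK := H.K1
  have hc := H.c1
  have hN : 0 ≤ N u := apply_nonneg N u
  have hφ0 : 0 ≤ phi K r := phi_nonneg hK r
  have hPi0 : 0 ≤ PiC K (phi K r) S := PiC_nonneg (by linarith) hφ0 (by positivity)
  have ha : (0 : ℝ) ≤ 3 * K + 13 * K * (3 + 3 * K) + 4 := by positivity
  have hb : (0 : ℝ) ≤ (2 + 4 * S) * (c * c) := by positivity
  have hd : (0 : ℝ) ≤ 8 * S * K * (1 + PiC K (phi K r) S) + 2 * PiC K (phi K r) S := by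
    positivity
  have hQa : 3 * K + 13 * K * (3 + 3 * K) + 4 ≤ QC K c (phi K r) S := by unfold QC; linarith
  have hQb : (2 + 4 * S) * (c * c) ≤ QC K c (phi K r) S := by unfold QC; linarith
  have hQd : 8 * S * K * (1 + PiC K (phi K r) S) + 2 * PiC K (phi K r) S
      ≤ QC K c (phi K r) S := by unfold QC; linarith
  rcases A.eq_empty_or_nonempty with hAe | hAne
  · rw [hAe]
    have e1 : (restr ∅ u : ι → ℝ) = 0 := by funext i; simp [restr]
    rw [e1, map_zero]
    exact mul_nonneg (ha.trans hQa) hN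
  obtain ⟨i0, hi0, hmin⟩ := Finset.exists_min_image A u hAne
  set t := u i0 with ht
  rcases (hu i0).eq_or_lt with ht0 | ht0
  · -- t = 0
    have e : restr A u = u := by
      funext i
      simp only [restr]
      split_ifs with h
      · rfl
      · have h1 := hA i0 hi0 i h
        have h2 := hu i
        linarith
    rw [e]
    have h1 : (1 : ℝ) ≤ QC K c (phi K r) S := by
      have : (1 : ℝ) ≤ 3 * K + 13 * K * (3 + 3 * K) + 4 := by nlinarith
      linarith
    nlinarith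
  have htA' : ∀ j, j ∉ A → u j ≤ t := fun j hj => hA i0 hi0 j hj
  -- trivial bound for small sets
  have htriv : ∀ m : ℝ, (A.card : ℝ) ≤ m → m * (c * c) ≤ QC K c (phi K r) S →
      N (restr A u) ≤ QC K c (phi K r) S * N u := by
    intro m hm hmQ
    calc N (restr A u) ≤ A.card * (c * c) * N u := restr_card H u hu A
      _ ≤ m * (c * c) * N u := by gcongr
      _ ≤ QC K c (phi K r) S * N u := by gcongr
  set Ah : Finset ι := A.filter (fun i => 2 ^ (2 * S) * t ≤ u i) with hAh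
  by_cases hcase : A.card ≤ 2 * Ah.card
  · by_cases hb2 : 2 ≤ Ah.card
    · calc N (restr A u) ≤ (3 * K + 13 * K * (3 + 3 * K) + 4) * N u :=
            case_one H S hL u hu A hA t ht0 hmin htA' Ah hAh hcase hb2
        _ ≤ _ := by gcongr
    · apply htriv 2
      · have : A.card ≤ 2 := by omega
        exact_mod_cast this
      · refine le_trans ?_ hQb
        gcongr
        have : (0 : ℝ) ≤ 4 * S := by positivity
        linarith
  · push Not at hcase
    -- find a big level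
    have hlevel : ∃ s : ℕ, A.card ≤ 4 * S *
        (A.filter (fun i => 2 ^ s * t ≤ u i ∧ u i < 2 ^ (s + 1) * t)).card := by
      by_contra hno
      push Not at hno
      have hsub : A \ Ah ⊆ (Finset.range (2 * S)).biUnion
          (fun s => A.filter (fun i => 2 ^ s * t ≤ u i ∧ u i < 2 ^ (s + 1) * t)) := by
        intro i hi
        rw [Finset.mem_sdiff] at hi
        rw [Finset.mem_biUnion]
        have h1 : 1 ≤ u i / t := by
          rw [le_div_iff₀ ht0]; linarith [hmin i hi.1]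
        obtain ⟨s, hs1, hs2⟩ := exists_nat_pow_near h1 (by norm_num : (1 : ℝ) < 2)
        rw [le_div_iff₀ ht0] at hs1
        rw [div_lt_iff₀ ht0] at hs2
        refine ⟨s, ?_, ?_⟩
        · rw [Finset.mem_range]
          by_contra hs
          push Not at hs
          apply hi.2
          rw [hAh, Finset.mem_filter]
          refine ⟨hi.1, le_trans ?_ hs1⟩
          gcongr
          norm_num
        · rw [Finset.mem_filter]
          exact ⟨hi.1, hs1, hs2⟩
      have hc1 : (A \ Ah).card ≤ ∑ s ∈ Finset.range (2 * S),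
          (A.filter (fun i => 2 ^ s * t ≤ u i ∧ u i < 2 ^ (s + 1) * t)).card :=
        (Finset.card_le_card hsub).trans Finset.card_biUnion_le
      have hc2 : (A \ Ah).card = A.card - Ah.card :=
        Finset.card_sdiff_of_subset (Finset.filter_subset _ _)
      have hc3 : 4 * S * (A \ Ah).card ≤ 2 * S * A.card := by
        calc 4 * S * (A \ Ah).card ≤ 4 * S * ∑ s ∈ Finset.range (2 * S),
              (A.filter (fun i => 2 ^ s * t ≤ u i ∧ u i < 2 ^ (s + 1) * t)).card :=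
              Nat.mul_le_mul_left _ hc1
          _ = ∑ s ∈ Finset.range (2 * S), 4 * S *
              (A.filter (fun i => 2 ^ s * t ≤ u i ∧ u i < 2 ^ (s + 1) * t)).card := by
              rw [Finset.mul_sum]
          _ ≤ ∑ s ∈ Finset.range (2 * S), A.card :=
              Finset.sum_le_sum (fun s _ => (hno s).le)
          _ = 2 * S * A.card := by rw [Finset.sum_const, Finset.card_range, smul_eq_mul]
      rcases Nat.eq_zero_or_pos S with hS | hS
      · subst hS
        have : (A \ Ah).card = 0 := by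
          rw [Finset.card_eq_zero, ← Finset.subset_empty]
          refine hsub.trans ?_
          simp
        omega
      · have h5 : A.card < 2 * (A \ Ah).card := by omega
        have h6 : 2 * S * A.card < 2 * S * (2 * (A \ Ah).card) :=
          Nat.mul_lt_mul_of_pos_left h5 (by omega)
        have h7 : 2 * S * (2 * (A \ Ah).card) = 4 * S * (A \ Ah).card := by ring
        omega
    obtain ⟨s, hs⟩ := hlevel
    set Lv := A.filter (fun i => 2 ^ s * t ≤ u i ∧ u i < 2 ^ (s + 1) * t) with hLv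
    by_cases hn : 2 ≤ Lv.card
    · calc N (restr A u)
          ≤ (8 * S * K * (1 + PiC K (phi K r) S) + 2 * PiC K (phi K r) S) * N u :=
            case_two H S r hr u hu A hA t ht0 hmin htA' s Lv hLv hs hn
        _ ≤ _ := by gcongr
    · apply htriv (4 * S)
      · have : A.card ≤ 4 * S := by
          calc A.card ≤ 4 * S * Lv.card := hs
            _ ≤ 4 * S * 1 := Nat.mul_le_mul_left _ (by omega)
            _ = 4 * S := by ring
        exact_mod_cast this
      · refine le_trans ?_ hQb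
        gcongr
        linarith

lemma QC_le {K c φ : ℝ} (hK : 1 ≤ K) (hc : 1 ≤ c) (hφ : 0 ≤ φ) :
    ∃ C0 : ℝ, 0 < C0 ∧ ∀ S : ℝ, 0 ≤ S → QC K c φ S ≤ C0 * (1 + S) ^ 3 := by
  set a : ℝ := 1 + 24 * K with ha
  have ha0 : 0 ≤ a := by positivity
  refine ⟨(3 * K + 13 * K * (3 + 3 * K) + 4) + 6 * (c * c) +
    (8 * K + 2) * (1 + φ * (2 * a + φ * a ^ 2)), by positivity, ?_⟩
  intro S hS
  have h1 : 1 + 24 * S * K ≤ a * (1 + S) := by rw [ha]; nlinarith
  have h1' : 0 ≤ 1 + 24 * S * K := by positivity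
  have hS1 : 1 ≤ 1 + S := by linarith
  have hS2 : (1 + S) ≤ (1 + S) ^ 2 := by nlinarith
  have hS3 : (1 + S) ^ 2 ≤ (1 + S) ^ 3 := by
    have : 0 ≤ (1 + S) ^ 2 := by positivity
    calc (1 + S) ^ 2 = (1 + S) ^ 2 * 1 := by ring
      _ ≤ (1 + S) ^ 2 * (1 + S) := by gcongr
      _ = (1 + S) ^ 3 := by ring
  have h2 : PiC K φ S ≤ φ * (2 * a + φ * a ^ 2) * (1 + S) ^ 2 := by
    unfold PiC
    calc φ * ((1 + 24 * S * K) + (1 + 24 * S * K) * (1 + φ * (1 + 24 * S * K)))
        ≤ φ * ((a * (1 + S)) + (a * (1 + S)) * (1 + φ * (a * (1 + S)))) := by gcongr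
      _ = φ * (2 * a * (1 + S) + φ * a ^ 2 * (1 + S) ^ 2) := by ring
      _ ≤ φ * (2 * a * (1 + S) ^ 2 + φ * a ^ 2 * (1 + S) ^ 2) := by gcongr
      _ = _ := by ring
  have hPi0 : 0 ≤ PiC K φ S := PiC_nonneg (by linarith) hφ hS
  set b : ℝ := φ * (2 * a + φ * a ^ 2) with hb
  have hb0 : 0 ≤ b := by positivity
  have h3 : 8 * S * K * (1 + PiC K φ S) + 2 * PiC K φ S ≤ (8 * K + 2) * (1 + b) * (1 + S) ^ 3 := by
    calc 8 * S * K * (1 + PiC K φ S) + 2 * PiC K φ S
        ≤ 8 * (1 + S) * K * (1 + PiC K φ S) + 2 * (1 + S) * (1 + PiC K φ S) := by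
          have : S ≤ 1 + S := by linarith
          have h5 : 8 * S * K * (1 + PiC K φ S) ≤ 8 * (1 + S) * K * (1 + PiC K φ S) := by gcongr
          have h6 : 2 * PiC K φ S ≤ 2 * (1 + S) * (1 + PiC K φ S) := by nlinarith
          linarith
      _ = (8 * K + 2) * (1 + S) * (1 + PiC K φ S) := by ring
      _ ≤ (8 * K + 2) * (1 + S) * ((1 + S) ^ 2 + b * (1 + S) ^ 2) := by
          have h7 : (1 : ℝ) ≤ (1 + S) ^ 2 := by nlinarith
          gcongr
      _ = _ := by ring
  have h4 : (1 : ℝ) ≤ (1 + S) ^ 3 := by nlinarith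
  have h5 : 3 * K + 13 * K * (3 + 3 * K) + 4
      ≤ (3 * K + 13 * K * (3 + 3 * K) + 4) * (1 + S) ^ 3 := by
    have : 0 ≤ 3 * K + 13 * K * (3 + 3 * K) + 4 := by positivity
    nlinarith
  have h6 : (2 + 4 * S) * (c * c) ≤ 6 * (c * c) * (1 + S) ^ 3 := by
    have h7 : (2 + 4 * S) ≤ 6 * (1 + S) ^ 3 := by nlinarith
    have h8 : 0 ≤ c * c := by positivity
    nlinarith
  unfold QC
  linarith

lemma exists_S0 {K c φ : ℝ} (hK : 1 ≤ K) (hc : 1 ≤ c) (hφ : 0 ≤ φ) :
    ∃ S0 : ℕ, ∀ S : ℕ, S0 ≤ S → QC K c φ ((S + 1 : ℕ) : ℝ) ≤ 2 ^ S := by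
  obtain ⟨C0, hC0, hC⟩ := QC_le (φ := φ) hK hc hφ
  have h := tendsto_pow_const_div_const_pow_of_one_lt 3 (by norm_num : (1 : ℝ) < 2)
  have h2 := (h.eventually (gt_mem_nhds (by positivity : (0 : ℝ) < 1 / (4 * C0)))).exists_forall_of_atTop
  obtain ⟨n0, hn0⟩ := h2
  refine ⟨n0, fun S hS => ?_⟩
  have h3 := hn0 (S + 2) (by omega)
  have h4 := hC ((S + 1 : ℕ) : ℝ) (by positivity)
  refine h4.trans ?_
  rw [div_lt_div_iff₀ (by positivity) (by positivity)] at h3
  push_cast at h3 ⊢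
  have h5 : (1 : ℝ) + (S + 1) = S + 2 := by ring
  rw [h5]
  have h6 : (2 : ℝ) ^ (S + 2) = 4 * 2 ^ S := by rw [pow_add]; ring
  rw [h6] at h3
  nlinarith

/-- The finite dimensional core: a bound independent of the dimension. -/
theorem core (K c : ℝ) : ∃ L : ℝ, ∀ (ι : Type) [Fintype ι] [DecidableEq ι]
    (N : Seminorm ℝ (ι → ℝ)), Hyp N K c → ∀ u : ι → ℝ, (∀ i, 0 ≤ u i) →
    ∀ A : Finset ι, (∀ i ∈ A, ∀ j, j ∉ A → u j ≤ u i) → N (restr A u) ≤ L * N u := by
  by_cases hK : 1 ≤ K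
  swap
  · exact ⟨0, fun ι _ _ N H => absurd H.K1 hK⟩
  by_cases hc : 1 ≤ c
  swap
  · exact ⟨0, fun ι _ _ N H => absurd H.c1 hc⟩
  have hq1 : 1 - 1 / (2 * K) < 1 := by
    have : 0 < 1 / (2 * K) := by positivity
    linarith
  obtain ⟨r, hr⟩ := exists_pow_lt_of_lt_one (by norm_num : (0 : ℝ) < 1 / 2) hq1
  obtain ⟨S0, hS0⟩ := exists_S0 (φ := phi K r) hK hc (phi_nonneg hK r)
  refine ⟨2 ^ S0, ?_⟩
  intro ι _ _ N H
  have hdesc : ∀ k : ℕ, (∀ u : ι → ℝ, (∀ i, 0 ≤ u i) → ∀ A : Finset ι,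
      (∀ i ∈ A, ∀ j, j ∉ A → u j ≤ u i) → N (restr A u) ≤ 2 ^ (S0 + k) * N u) →
      (∀ u : ι → ℝ, (∀ i, 0 ≤ u i) → ∀ A : Finset ι,
      (∀ i ∈ A, ∀ j, j ∉ A → u j ≤ u i) → N (restr A u) ≤ 2 ^ S0 * N u) := by
    intro k
    induction k with
    | zero => intro h; simpa using h
    | succ k ih =>
      intro h
      apply ih
      intro u hu A hA
      have h1 := step H (S0 + (k + 1)) r hr.le h u hu A hA
      have h2 := hS0 (S0 + k) (by omega)
      have hN : 0 ≤ N u := apply_nonneg N u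
      calc N (restr A u) ≤ QC K c (phi K r) ((S0 + (k + 1) : ℕ) : ℝ) * N u := h1
        _ = QC K c (phi K r) ((S0 + k + 1 : ℕ) : ℝ) * N u := by rfl
        _ ≤ 2 ^ (S0 + k) * N u := by gcongr
  obtain ⟨k, hk⟩ := pow_unbounded_of_one_lt ((Fintype.card ι : ℝ) * (c * c))
    (by norm_num : (1 : ℝ) < 2)
  apply hdesc k
  intro u hu A hA
  have hN : 0 ≤ N u := apply_nonneg N u
  calc N (restr A u) ≤ A.card * (c * c) * N u := restr_card H u hu A
    _ ≤ (Fintype.card ι : ℝ) * (c * c) * N u := by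
        have : (A.card : ℝ) ≤ Fintype.card ι := by exact_mod_cast Finset.card_le_univ A
        gcongr
    _ ≤ 2 ^ k * N u := by gcongr
    _ ≤ 2 ^ (S0 + k) * N u := by
        gcongr
        · norm_num
        · omega

end Pool.Agent.Lib.MP_d7aa4b_an
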