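import Pool.Agent.Lib.MP_d7aa4b_an.QG

namespace Pool.Agent.Lib.MP_d7aa4b_an

open Filter Topology Finset

variable {𝕜 : Type*} [RCLike 𝕜] {X : Type*} [NormedAddCommGroup X] [NormedSpace 𝕜 X]
variable {e : ℕ → X} {f : ℕ → X →L[𝕜] 𝕜}

/-- un-normalised VP sums -/
noncomputable def vSum (e : ℕ → X) (f : ℕ → X →L[𝕜] 𝕜) (x : X) (k : ℕ → ℕ) (m : ℕ) : X :=
  ∑ n ∈ Finset.range m, greedySum e f x k (m + n + 1)

lemma vpMean_eq (x : X) (k : ℕ → ℕ) (m : ℕ) (hm : 1 ≤ m) :
    vpMean e f x k m = ((m : 𝕜)⁻¹) • vSum e f x k m := by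
  unfold vpMean cesaroMean vSum
  rw [two_mul m, Finset.sum_range_add, smul_smul]
  have h1 : (2 : 𝕜) * ((m + m : ℕ) : 𝕜)⁻¹ = (m : 𝕜)⁻¹ := by
    have : (m : 𝕜) ≠ 0 := by
      rw [Ne, Nat.cast_eq_zero]; omega
    push_cast
    field_simp
    ring
  rw [h1, smul_add, add_sub_cancel_left]

lemma greedySum_add (x y : X) (k : ℕ → ℕ) (m : ℕ) :
    greedySum e f (x + y) k m = greedySum e f x k m + greedySum e f y k m := by
  simp only [greedySum, map_add, add_smul, Finset.sum_add_distrib]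

lemma greedySum_smul (a : 𝕜) (x : X) (k : ℕ → ℕ) (m : ℕ) :
    greedySum e f (a • x) k m = a • greedySum e f x k m := by
  simp only [greedySum, map_smul, Finset.smul_sum, smul_smul, smul_eq_mul]

lemma vSum_smul (a : 𝕜) (x : X) (k : ℕ → ℕ) (m : ℕ) :
    vSum e f (a • x) k m = a • vSum e f x k m := by
  simp only [vSum, greedySum_smul, Finset.smul_sum]

/-- a vector in the span which vanishes off `s` is equal to its projection on `s` -/
lemma proj_eq_of_span (hb : ∀ i j, f i (e j) = if i = j then 1 else 0) (y : X)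
    (hy : y ∈ Submodule.span 𝕜 (Set.range e)) (s : Finset ℕ) (h2 : ∀ n, n ∉ s → f n y = 0) :
    proj e f s y = y := by
  classical
  obtain ⟨s1, hs1⟩ := exists_fin (f := f) hb y hy
  have h3 : ∀ n, n ∉ s1 → f n y = 0 := by
    intro n hn
    rw [← hs1, coord_proj hb, if_neg hn]
  have h4 : proj e f s1 y = proj e f (s1 ∪ s) y := by
    unfold proj
    apply Finset.sum_subset Finset.subset_union_left
    intro n _ hn
    rw [h3 n hn, zero_smul]
  have h5 : proj e f s y = proj e f (s1 ∪ s) y := by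
    unfold proj
    apply Finset.sum_subset Finset.subset_union_right
    intro n _ hn
    rw [h2 n hn, zero_smul]
  rw [h5, ← h4, hs1]

lemma span_of_proj (s : Finset ℕ) (x : X) (h : proj e f s x = x) :
    x ∈ Submodule.span 𝕜 (Set.range e) := by
  rw [← h]
  unfold proj
  apply Submodule.sum_mem
  intro i _
  exact Submodule.smul_mem _ _ (Submodule.subset_span ⟨i, rfl⟩)

lemma proj_mem_span (s : Finset ℕ) (x : X) :
    proj e f s x ∈ Submodule.span 𝕜 (Set.range e) := by
  unfold proj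
  apply Submodule.sum_mem
  intro i _
  exact Submodule.smul_mem _ _ (Submodule.subset_span ⟨i, rfl⟩)

lemma proj_norm_le {c : ℝ} (he : ∀ n, ‖e n‖ ≤ c) (hf : ∀ n, ‖f n‖ ≤ c) (hc : 1 ≤ c) (x : X)
    (s : Finset ℕ) : ‖proj e f s x‖ ≤ s.card * (c * c) * ‖x‖ := by
  unfold proj
  calc ‖∑ n ∈ s, f n x • e n‖ ≤ ∑ n ∈ s, ‖f n x • e n‖ := norm_sum_le _ _
    _ ≤ ∑ n ∈ s, c * c * ‖x‖ := Finset.sum_le_sum (fun j _ => term_le he hf hc x _)
    _ = _ := by rw [Finset.sum_const, nsmul_eq_mul]; ring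

/-- the failure of the uniform bound -/
def NotUV (e : ℕ → X) (f : ℕ → X →L[𝕜] 𝕜) : Prop :=
  ∀ R : ℝ, 0 ≤ R → ∃ (x : X) (s : Finset ℕ) (k : ℕ → ℕ) (m : ℕ), proj e f s x = x ∧
    IsGreedyOrdering f x k ∧ R * m * ‖x‖ < ‖vSum e f x k m‖

lemma off_set {c : ℝ} (hb : ∀ i j, f i (e j) = if i = j then 1 else 0)
    (he : ∀ n, ‖e n‖ ≤ c) (hf : ∀ n, ‖f n‖ ≤ c) (hc : 1 ≤ c) (hneg : NotUV e f)
    (F : Finset ℕ) (R : ℝ) (hR : 0 ≤ R) :
    ∃ (x : X) (s : Finset ℕ) (k : ℕ → ℕ) (m : ℕ), proj e f s x = x ∧ (∀ n ∈ F, f n x = 0) ∧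
      IsGreedyOrdering f x k ∧ 1 ≤ m ∧ R * m * ‖x‖ < ‖vSum e f x k m‖ := by
  classical
  set κ : ℝ := c * c with hκ
  have hκ1 : 1 ≤ κ := by rw [hκ]; nlinarith
  set φ : ℝ := F.card * κ with hφ
  have hφ0 : 0 ≤ φ := by positivity
  obtain ⟨x0, s, k0, m, hs, hk0, hbig⟩ := hneg (R * (1 + φ) + φ * (2 + φ)) (by positivity)
  have hx0 : 0 ≤ ‖x0‖ := norm_nonneg x0
  have hm : 1 ≤ m := by
    rcases Nat.eq_zero_or_pos m with h | h
    · subst h; simp [vSum] at hbig
    · exact h
  set x : X := x0 - proj e f F x0 with hx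
  have hfx : ∀ n, f n x = if n ∈ F then 0 else f n x0 := by
    intro n
    rw [hx, map_sub, coord_proj hb]
    split_ifs <;> ring
  have hxn : ‖x‖ ≤ (1 + φ) * ‖x0‖ := by
    rw [hx]
    refine (norm_sub_le _ _).trans ?_
    have := proj_norm_le he hf hc x0 F
    rw [← hκ, ← hφ] at this
    linarith
  let p : ℕ → Prop := fun j => k0 j ∉ F
  have hfin : {j | ¬ p j}.Finite := by
    have : {j | ¬ p j} = k0 ⁻¹' (F : Set ℕ) := by ext j; simp [p]
    rw [this]
    exact Set.Finite.preimage (hk0.injective.injOn) (Finset.finite_toSet F)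
  have hinf : {j | p j}.Infinite := by
    have h1 := hfin.infinite_compl
    have h2 : {j | ¬ p j}ᶜ = {j | p j} := by ext j; simp [p]
    rwa [h2] at h1
  let k : ℕ → ℕ := fun j => k0 (Nat.nth p j)
  have hpn : ∀ j, k j ∉ F := fun j => Nat.nth_mem_of_infinite hinf j
  have hk : IsGreedyOrdering f x k := by
    refine ⟨hk0.injective.comp (Nat.nth_injective hinf), ?_, ?_⟩
    · intro n hn
      rw [hfx] at hn
      split_ifs at hn with h
      · exact absurd rfl hn
      · obtain ⟨j, hj⟩ := hk0.support_subset n hn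
        have hpj : p j := by simp only [p]; rw [hj]; exact h
        exact ⟨Nat.count p j, by simp only [k]; rw [Nat.nth_count hpj, hj]⟩
    · intro i j hij
      rw [hfx, hfx, if_neg (hpn i), if_neg (hpn j)]
      exact hk0.antitone _ _ (Nat.nth_strictMono hinf hij)
  -- counting
  have hcount : ∀ i, i ≤ Nat.count p i + F.card := by
    intro i
    have h1 : Nat.count p i = ((Finset.range i).filter p).card := Nat.count_eq_card_filter_range p i
    have h2 : ((Finset.range i).filter p).card + ((Finset.range i).filter (fun j => ¬ p j)).card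
        = i := by
      rw [Finset.card_filter_add_card_filter_not]; simp
    have h3 : ((Finset.range i).filter (fun j => ¬ p j)).card ≤ F.card := by
      apply Finset.card_le_card_of_injOn k0
      · intro j hj
        simp only [Finset.coe_filter, Set.mem_ofPred_eq, p, not_not] at hj
        exact hj.2
      · exact hk0.injective.injOn
    omega
  have hcl : ∀ i, Nat.count p i ≤ i := fun i => Nat.count_le p
  -- comparison of the greedy sums
  have hcomp1 : ∀ i, greedySum e f x0 k0 i = greedySum e f x k (Nat.count p i) +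
      ∑ j ∈ Finset.range i, if p j then 0 else f (k0 j) x0 • e (k0 j) := by
    intro i
    induction i with
    | zero => simp [greedySum]
    | succ i ih =>
      have e1 : greedySum e f x0 k0 (i + 1) = greedySum e f x0 k0 i + f (k0 i) x0 • e (k0 i) := by
        unfold greedySum; rw [Finset.sum_range_succ]
      rw [e1, ih, Finset.sum_range_succ, Nat.count_succ]
      by_cases hp : p i
      · have e2 : greedySum e f x k (Nat.count p i + 1)
            = greedySum e f x k (Nat.count p i) + f (k0 i) x0 • e (k0 i) := by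
          unfold greedySum
          rw [Finset.sum_range_succ]
          simp only [k]
          rw [Nat.nth_count hp, hfx, if_neg hp]
        rw [if_pos hp, if_pos hp, e2]
        abel
      · rw [if_neg hp, if_neg hp]
        abel_nf
  have hE : ∀ i, ‖∑ j ∈ Finset.range i, if p j then 0 else f (k0 j) x0 • e (k0 j)‖
      ≤ φ * ‖x0‖ := by
    intro i
    have h1 : ∑ j ∈ Finset.range i, (if p j then 0 else f (k0 j) x0 • e (k0 j))
        = ∑ j ∈ (Finset.range i).filter (fun j => ¬ p j), f (k0 j) x0 • e (k0 j) := by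
      rw [Finset.sum_filter]
      apply Finset.sum_congr rfl
      intro j _
      by_cases hp : p j <;> simp [hp]
    rw [h1]
    have h3 : ((Finset.range i).filter (fun j => ¬ p j)).card ≤ F.card := by
      apply Finset.card_le_card_of_injOn k0
      · intro j hj
        simp only [Finset.coe_filter, Set.mem_ofPred_eq, p, not_not] at hj
        exact hj.2
      · exact hk0.injective.injOn
    calc _ ≤ ∑ j ∈ (Finset.range i).filter (fun j => ¬ p j), ‖f (k0 j) x0 • e (k0 j)‖ :=
          norm_sum_le _ _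
      _ ≤ ∑ j ∈ (Finset.range i).filter (fun j => ¬ p j), κ * ‖x0‖ :=
          Finset.sum_le_sum (fun j _ => term_le he hf hc x0 _)
      _ = ((Finset.range i).filter (fun j => ¬ p j)).card * (κ * ‖x0‖) := by
          rw [Finset.sum_const, nsmul_eq_mul]
      _ ≤ F.card * (κ * ‖x0‖) := by gcongr
      _ = φ * ‖x0‖ := by rw [hφ]; ring
  have hcomp2 : ∀ i, ‖greedySum e f x k i - greedySum e f x k (Nat.count p i)‖ ≤ φ * ‖x‖ := by
    intro i
    obtain ⟨d, hd⟩ := Nat.exists_eq_add_of_le (hcl i)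
    have hdF : d ≤ F.card := by have := hcount i; omega
    have h1 : greedySum e f x k i - greedySum e f x k (Nat.count p i)
        = ∑ j ∈ Finset.range d, f (k (Nat.count p i + j)) x • e (k (Nat.count p i + j)) := by
      unfold greedySum
      conv_lhs => rw [hd]
      rw [Finset.sum_range_add]
      have : Nat.count p (Nat.count p i + d) = Nat.count p i := by rw [← hd]
      rw [this, add_sub_cancel_left]
    rw [h1]
    calc _ ≤ ∑ j ∈ Finset.range d, ‖f (k (Nat.count p i + j)) x • e (k (Nat.count p i + j))‖ :=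
          norm_sum_le _ _
      _ ≤ ∑ j ∈ Finset.range d, κ * ‖x‖ :=
          Finset.sum_le_sum (fun j _ => term_le he hf hc x _)
      _ = d * (κ * ‖x‖) := by rw [Finset.sum_const, Finset.card_range, nsmul_eq_mul]
      _ ≤ F.card * (κ * ‖x‖) := by gcongr
      _ = φ * ‖x‖ := by rw [hφ]; ring
  have hcomp : ∀ i, ‖greedySum e f x0 k0 i - greedySum e f x k i‖ ≤ φ * ‖x0‖ + φ * ‖x‖ := by
    intro i
    have h1 : greedySum e f x0 k0 i - greedySum e f x k i
        = (∑ j ∈ Finset.range i, if p j then 0 else f (k0 j) x0 • e (k0 j))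
          - (greedySum e f x k i - greedySum e f x k (Nat.count p i)) := by
      rw [hcomp1 i]; abel
    rw [h1]
    exact (norm_sub_le _ _).trans (add_le_add (hE i) (hcomp2 i))
  have hV : ‖vSum e f x0 k0 m‖ ≤ ‖vSum e f x k m‖ + m * (φ * ‖x0‖ + φ * ‖x‖) := by
    have h1 : vSum e f x0 k0 m = vSum e f x k m +
        ∑ n ∈ Finset.range m, (greedySum e f x0 k0 (m + n + 1) - greedySum e f x k (m + n + 1)) := by
      unfold vSum
      rw [← Finset.sum_add_distrib]
      apply Finset.sum_congr rfl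
      intro n _
      abel_nf
    rw [h1]
    refine (norm_add_le _ _).trans ?_
    gcongr
    calc _ ≤ ∑ n ∈ Finset.range m,
          ‖greedySum e f x0 k0 (m + n + 1) - greedySum e f x k (m + n + 1)‖ := norm_sum_le _ _
      _ ≤ ∑ n ∈ Finset.range m, (φ * ‖x0‖ + φ * ‖x‖) := Finset.sum_le_sum (fun n _ => hcomp _)
      _ = m * (φ * ‖x0‖ + φ * ‖x‖) := by rw [Finset.sum_const, Finset.card_range, nsmul_eq_mul]
  refine ⟨x, s, k, m, ?_, ?_, hk, hm, ?_⟩
  · apply proj_eq_of_span hb
    · rw [hx]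
      exact Submodule.sub_mem _ (span_of_proj s x0 hs) (proj_mem_span F x0)
    · intro n hn
      rw [hfx]
      split_ifs
      · rfl
      · rw [← hs, coord_proj hb, if_neg hn]
  · intro n hn
    rw [hfx, if_pos hn]
  · have hmm : (0 : ℝ) ≤ m := by positivity
    have h1 : (m : ℝ) * (φ * ‖x0‖ + φ * ‖x‖) ≤ φ * (2 + φ) * m * ‖x0‖ := by
      have : φ * ‖x‖ ≤ φ * ((1 + φ) * ‖x0‖) := by gcongr
      calc (m : ℝ) * (φ * ‖x0‖ + φ * ‖x‖) ≤ m * (φ * ‖x0‖ + φ * ((1 + φ) * ‖x0‖)) := by gcongr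
        _ = _ := by ring
    have h2 : R * m * ‖x‖ ≤ R * (1 + φ) * m * ‖x0‖ := by
      calc R * m * ‖x‖ ≤ R * m * ((1 + φ) * ‖x0‖) := by gcongr
        _ = _ := by ring
    have h3 : (R * (1 + φ) + φ * (2 + φ)) * m * ‖x0‖
        = R * (1 + φ) * m * ‖x0‖ + φ * (2 + φ) * m * ‖x0‖ := by ring
    linarith

end Pool.Agent.Lib.MP_d7aa4b_an
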