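import Pool.Agent.Lib.MP_d7aa4b_an.Gliding

namespace Pool.Agent.Lib.MP_d7aa4b_an

open Filter Topology Finset

variable {𝕜 : Type*} [RCLike 𝕜] {X : Type*} [NormedAddCommGroup X] [NormedSpace 𝕜 X]
variable {e : ℕ → X} {f : ℕ → X →L[𝕜] 𝕜}

/-- one stage of the gliding hump -/
lemma stage {c : ℝ} (hb : ∀ i j, f i (e j) = if i = j then 1 else 0)
    (he : ∀ n, ‖e n‖ ≤ c) (hf : ∀ n, ‖f n‖ ≤ c) (hc : 1 ≤ c) (hneg : NotUV e f)
    (L : List ℕ) (τ : ℝ) (hτ : 0 < τ) :
    ∃ (x : X) (k : ℕ → ℕ) (m N : ℕ) (τ' : ℝ), (∃ s, proj e f s x = x) ∧ (∀ n ∈ L, f n x = 0) ∧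
      ‖x‖ ≤ τ ∧ IsGreedyOrdering f x k ∧ 1 ≤ m ∧ (∀ r, f (k r) x ≠ 0 ↔ r < N) ∧ 1 ≤ N ∧
      (1 + (L.length : ℝ)) * (L.length + 5) * m < ‖vSum e f x k m‖ ∧
      0 < τ' ∧ τ' ≤ τ / 2 ∧ (∀ r, r < N → c * τ' ≤ ‖f (k r) x‖) ∧
      4 * (L.length + m) * (c * c) * τ' ≤ 1 ∧ 2 * (L.length + N) * (c * c) * τ' ≤ 1 := by
  classical
  set M : ℝ := (L.length : ℝ) with hM
  have hM0 : 0 ≤ M := by positivity
  obtain ⟨x0, s, k, m, hs, hoff, hk, hm, hbig⟩ := off_set hb he hf hc hneg L.toFinset
    ((1 + M) * (M + 5) / τ) (by positivity)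
  have hx0 : x0 ≠ 0 := by
    rintro rfl
    have : vSum e f (0 : X) k m = 0 := by simp [vSum, greedySum]
    rw [this] at hbig
    simp at hbig
  have hx0n : 0 < ‖x0‖ := norm_pos_iff.2 hx0
  set a : ℝ := τ / ‖x0‖ with ha
  have ha0 : 0 < a := by positivity
  set x : X := (a : 𝕜) • x0 with hx
  have hfx : ∀ n, f n x = (a : 𝕜) * f n x0 := by intro n; rw [hx, map_smul, smul_eq_mul]
  have hfxn : ∀ n, ‖f n x‖ = a * ‖f n x0‖ := by
    intro n; rw [hfx, norm_mul, RCLike.norm_ofReal, abs_of_pos ha0]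
  have hxn : ‖x‖ = τ := by
    rw [hx, norm_smul, RCLike.norm_ofReal, abs_of_pos ha0, ha]
    field_simp
  have haz : (a : 𝕜) ≠ 0 := by rw [Ne, RCLike.ofReal_eq_zero]; exact ha0.ne'
  have hk' : IsGreedyOrdering f x k := by
    refine ⟨hk.injective, ?_, ?_⟩
    · intro n hn
      apply hk.support_subset n
      intro h; apply hn; rw [hfx, h, mul_zero]
    · intro i j hij
      rw [hfxn, hfxn]
      have := hk.antitone i j hij
      gcongr
  have hsx : proj e f s x = x := by
    have h1 : proj e f s x = (a : 𝕜) • proj e f s x0 := by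
      unfold proj
      rw [Finset.smul_sum]
      apply Finset.sum_congr rfl
      intro n _
      rw [hfx, smul_smul]
    rw [h1, hs]
  -- first zero of the coefficient sequence
  have hex : ∃ r, f (k r) x = 0 := by
    by_contra hno
    push Not at hno
    have h1 : ∀ r, k r ∈ s := by
      intro r
      by_contra h2
      apply hno r
      rw [← hsx, coord_proj hb, if_neg h2]
    have h2 : (Set.range k).Finite := by
      apply Set.Finite.subset (Finset.finite_toSet s)
      rintro _ ⟨r, rfl⟩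
      exact h1 r
    exact Set.infinite_range_of_injective hk'.injective h2
  set N := Nat.find hex with hN
  have hNzero : f (k N) x = 0 := Nat.find_spec hex
  have hNiff : ∀ r, f (k r) x ≠ 0 ↔ r < N := by
    intro r
    constructor
    · intro h
      by_contra hr
      push Not at hr
      rcases hr.eq_or_lt with h1 | h1
      · rw [← h1] at h; exact h hNzero
      · have h2 := hk'.antitone N r h1
        rw [hNzero, norm_zero] at h2
        exact h (norm_le_zero_iff.1 h2)
    · intro h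
      exact Nat.find_min hex h
  have hN1 : 1 ≤ N := by
    by_contra h
    have hN0 : N = 0 := by omega
    apply hx0
    have h1 : ∀ n, f n x = 0 := by
      intro n
      by_contra hn
      obtain ⟨r, hr⟩ := hk'.support_subset n hn
      rw [← hr] at hn
      have := (hNiff r).1 hn
      omega
    have h2 : x = 0 := by
      rw [← hsx]
      unfold proj
      apply Finset.sum_eq_zero
      intro n _
      rw [h1, zero_smul]
    rw [hx, smul_eq_zero] at h2
    rcases h2 with h2 | h2
    · exact absurd h2 haz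
    · exact h2
  have hNlast : 0 < ‖f (k (N - 1)) x‖ := by
    apply norm_pos_iff.2
    exact (hNiff (N - 1)).2 (by omega)
  have hcc : 0 < c * c := by nlinarith
  have hcpos : 0 < c := by linarith
  have hm1 : (0 : ℝ) < m := by exact_mod_cast hm
  have hN1' : (0 : ℝ) < N := by exact_mod_cast hN1
  -- choice of τ'
  set t1 := τ / 2 with ht1
  set t2 := ‖f (k (N - 1)) x‖ / c with ht2
  set t3 := 1 / (4 * (M + m) * (c * c)) with ht3
  set t4 := 1 / (2 * (M + N) * (c * c)) with ht4
  have p1 : 0 < t1 := by positivity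
  have p2 : 0 < t2 := by positivity
  have p3 : 0 < t3 := by positivity
  have p4 : 0 < t4 := by positivity
  refine ⟨x, k, m, N, min (min t1 t2) (min t3 t4), ⟨s, hsx⟩, ?_, hxn.le, hk', hm, hNiff, hN1, ?_,
    ?_, ?_, ?_, ?_, ?_⟩
  · intro n hn
    rw [hfx, hoff n (List.mem_toFinset.2 hn), mul_zero]
  · rw [hx, vSum_smul, norm_smul, RCLike.norm_ofReal, abs_of_pos ha0]
    have h1 : (1 + M) * (M + 5) * m = a * ((1 + M) * (M + 5) / τ * m * ‖x0‖) := by
      rw [ha]; field_simp
    rw [h1]
    exact mul_lt_mul_of_pos_left hbig ha0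
  · exact lt_min (lt_min p1 p2) (lt_min p3 p4)
  · exact (min_le_left _ _).trans (min_le_left _ _)
  · intro r hr
    have h1 : min (min t1 t2) (min t3 t4) ≤ t2 := (min_le_left _ _).trans (min_le_right _ _)
    calc c * min (min t1 t2) (min t3 t4) ≤ c * t2 := by gcongr
      _ = ‖f (k (N - 1)) x‖ := by rw [ht2]; field_simp
      _ ≤ ‖f (k r) x‖ := by
          rcases Nat.lt_or_ge r (N - 1) with h2 | h2
          · exact hk'.antitone r (N - 1) h2
          · have : r = N - 1 := by omega
            rw [this]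
  · have h1 : min (min t1 t2) (min t3 t4) ≤ t3 := (min_le_right _ _).trans (min_le_left _ _)
    calc 4 * (M + m) * (c * c) * min (min t1 t2) (min t3 t4) ≤ 4 * (M + m) * (c * c) * t3 := by
          gcongr
      _ = 1 := by rw [ht3]; field_simp
  · have h1 : min (min t1 t2) (min t3 t4) ≤ t4 := (min_le_right _ _).trans (min_le_right _ _)
    calc 2 * (M + N) * (c * c) * min (min t1 t2) (min t3 t4) ≤ 2 * (M + N) * (c * c) * t4 := by
          gcongr
      _ = 1 := by rw [ht4]; field_simp

end Pool.Agent.Lib.MP_d7aa4b_an
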