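import Pool.Agent.Lib.MP_d7aa4b_an.Hump

namespace Pool.Agent.Lib.MP_d7aa4b_an

open Filter Topology Finset

variable {𝕜 : Type*} [RCLike 𝕜] {X : Type*} [NormedAddCommGroup X] [NormedSpace 𝕜 X]
variable {e : ℕ → X} {f : ℕ → X →L[𝕜] 𝕜}

theorem uv_of_vpqg [CompleteSpace X] {c : ℝ} (hb : ∀ i j, f i (e j) = if i = j then 1 else 0)
    (he : ∀ n, ‖e n‖ ≤ c) (hf : ∀ n, ‖f n‖ ≤ c) (hc : 1 ≤ c) (hVP : IsVPQuasiGreedy e f) :
    ∃ KV : ℝ, UV e f KV := by
  classical
  by_contra hcon
  have hneg : NotUV e f := by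
    intro R hR
    by_contra h
    push Not at h
    exact hcon ⟨R, hR, fun x s hs k hk m => h x s k m hs hk⟩
  set κ : ℝ := c * c with hκ
  have hκ0 : 0 < κ := by rw [hκ]; nlinarith
  have hc0 : 0 < c := by linarith
  have hst : ∀ st : {p : List ℕ × ℝ // p.1.Nodup ∧ 0 < p.2},
    ∃ (x : X) (k : ℕ → ℕ) (m N : ℕ) (τ' : ℝ), (∃ s, proj e f s x = x) ∧
      (∀ n ∈ st.1.1, f n x = 0) ∧
      ‖x‖ ≤ st.1.2 ∧ IsGreedyOrdering f x k ∧ 1 ≤ m ∧ (∀ r, f (k r) x ≠ 0 ↔ r < N) ∧ 1 ≤ N ∧
      (1 + (st.1.1.length : ℝ)) * (st.1.1.length + 5) * m < ‖vSum e f x k m‖ ∧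
      0 < τ' ∧ τ' ≤ st.1.2 / 2 ∧ (∀ r, r < N → c * τ' ≤ ‖f (k r) x‖) ∧
      4 * (st.1.1.length + m) * (c * c) * τ' ≤ 1 ∧ 2 * (st.1.1.length + N) * (c * c) * τ' ≤ 1 :=
    fun st => stage hb he hf hc hneg st.1.1 st.1.2 st.2.2
  choose gx gk gm gN gτ hfin hoff hnorm hk hm hN hN1 hbig hτ0 hτ2 hτc hτm hτN using hst
  let next : {p : List ℕ × ℝ // p.1.Nodup ∧ 0 < p.2} → {p : List ℕ × ℝ // p.1.Nodup ∧ 0 < p.2} :=
    fun st => ⟨(st.1.1 ++ (List.range (gN st)).map (gk st), gτ st), by
      refine ⟨?_, hτ0 st⟩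
      rw [List.nodup_append]
      refine ⟨st.2.1, (List.nodup_range).map (hk st).injective, ?_⟩
      intro a ha b hb2 hab
      subst hab
      rw [List.mem_map] at hb2
      obtain ⟨r, hr, hra⟩ := hb2
      rw [List.mem_range] at hr
      have h1 := hoff st a ha
      rw [← hra] at h1
      exact (hN st r).2 hr h1⟩
  let sq : ℕ → {p : List ℕ × ℝ // p.1.Nodup ∧ 0 < p.2} :=
    fun i => next^[i] ⟨([], 1), List.nodup_nil, one_pos⟩
  have hsq : ∀ i, sq (i + 1) = next (sq i) := fun i => Function.iterate_succ_apply' next i _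
  set Ls : ℕ → List ℕ := fun i => (sq i).1.1 with hLs
  set τ : ℕ → ℝ := fun i => (sq i).1.2 with hτ
  set x : ℕ → X := fun i => gx (sq i) with hx
  set k : ℕ → ℕ → ℕ := fun i => gk (sq i) with hkdef
  set m : ℕ → ℕ := fun i => gm (sq i) with hmdef
  set N : ℕ → ℕ := fun i => gN (sq i) with hNdef
  have hL0 : Ls 0 = [] := rfl
  have hτ00 : τ 0 = 1 := rfl
  have hLsucc : ∀ i, Ls (i + 1) = Ls i ++ (List.range (N i)).map (k i) := by
    intro i; simp only [hLs, hsq]; rfl
  have hτsucc : ∀ i, τ (i + 1) = gτ (sq i) := by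
    intro i; simp only [hτ, hsq]; rfl
  have hLnd : ∀ i, (Ls i).Nodup := fun i => (sq i).2.1
  have hτpos : ∀ i, 0 < τ i := fun i => (sq i).2.2
  have hoff' : ∀ i, ∀ n ∈ Ls i, f n (x i) = 0 := fun i => hoff (sq i)
  have hnorm' : ∀ i, ‖x i‖ ≤ τ i := fun i => hnorm (sq i)
  have hk' : ∀ i, IsGreedyOrdering f (x i) (k i) := fun i => hk (sq i)
  have hm' : ∀ i, 1 ≤ m i := fun i => hm (sq i)
  have hN' : ∀ i r, f (k i r) (x i) ≠ 0 ↔ r < N i := fun i => hN (sq i)
  have hN1' : ∀ i, 1 ≤ N i := fun i => hN1 (sq i)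
  have hfin' : ∀ i, ∃ s, proj e f s (x i) = x i := fun i => hfin (sq i)
  have hbig' : ∀ i, (1 + ((Ls i).length : ℝ)) * ((Ls i).length + 5) * m i
      < ‖vSum e f (x i) (k i) (m i)‖ := fun i => hbig (sq i)
  have hτ2' : ∀ i, τ (i + 1) ≤ τ i / 2 := fun i => by rw [hτsucc]; exact hτ2 (sq i)
  have hτc' : ∀ i r, r < N i → c * τ (i + 1) ≤ ‖f (k i r) (x i)‖ := fun i => by
    rw [hτsucc]; exact hτc (sq i)
  have hτm' : ∀ i, 4 * ((Ls i).length + m i) * (c * c) * τ (i + 1) ≤ 1 := fun i => by
    rw [hτsucc]; exact hτm (sq i)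
  have hτN' : ∀ i, 2 * ((Ls i).length + N i) * (c * c) * τ (i + 1) ≤ 1 := fun i => by
    rw [hτsucc]; exact hτN (sq i)
  have hlen : ∀ i, (Ls (i + 1)).length = (Ls i).length + N i := by
    intro i; rw [hLsucc, List.length_append, List.length_map, List.length_range]
  have hlen_ge : ∀ i, i ≤ (Ls i).length := by
    intro i
    induction i with
    | zero => simp
    | succ i ih => rw [hlen]; have := hN1' i; omega
  have hτN'' : ∀ i, 2 * ((Ls i).length : ℝ) * κ * τ i ≤ 1 := by
    intro i
    cases i with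
    | zero => rw [hL0]; simp
    | succ i =>
      have h1 := hτN' i
      rw [hlen]; push_cast; rw [hκ]; exact h1
  have hτgeom : ∀ i r, τ (i + r) ≤ τ i * (1 / 2) ^ r := by
    intro i r
    induction r with
    | zero => simp
    | succ r ih =>
      calc τ (i + (r + 1)) ≤ τ (i + r) / 2 := hτ2' (i + r)
        _ ≤ (τ i * (1 / 2) ^ r) / 2 := by gcongr
        _ = _ := by rw [pow_succ]; ring
  -- prefixes
  have hprefix : ∀ i j, i ≤ j → Ls i <+: Ls j := by
    intro i j hij
    obtain ⟨d, rfl⟩ := Nat.exists_eq_add_of_le hij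
    induction d with
    | zero => exact List.prefix_rfl
    | succ d ih =>
      refine (ih (by omega)).trans ?_
      have h1 := hLsucc (i + d)
      rw [show i + (d + 1) = (i + d) + 1 by ring, h1]
      exact List.prefix_append _ _
  have hmono : ∀ i j, i ≤ j → ∀ n ∈ Ls i, n ∈ Ls j := fun i j hij n hn =>
    (hprefix i j hij).subset hn
  have hget : ∀ i j, i ≤ j → ∀ r (h1 : r < (Ls i).length) (h2 : r < (Ls j).length),
      (Ls j)[r] = (Ls i)[r] := by
    intro i j hij r h1 h2
    exact ((hprefix i j hij).getElem h1).symm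
  -- supports
  have hsupp_in : ∀ i n, f n (x i) ≠ 0 → n ∈ Ls (i + 1) := by
    intro i n hn
    obtain ⟨r, hr⟩ := (hk' i).support_subset n hn
    rw [hLsucc, List.mem_append, List.mem_map]
    right
    refine ⟨r, ?_, hr⟩
    rw [List.mem_range]
    exact (hN' i r).1 (by rw [hr]; exact hn)
  have hdisj : ∀ i j n, i ≠ j → f n (x i) ≠ 0 → f n (x j) = 0 := by
    intro i j n hij hn
    rcases Nat.lt_or_gt_of_ne hij with h | h
    · exact hoff' j n (hmono (i + 1) j h n (hsupp_in i n hn))
    · by_contra h2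
      exact hn (hoff' i n (hmono (j + 1) i h n (hsupp_in j n h2)))
  -- the sum
  have hsummN : Summable (fun i => ‖x i‖) := by
    apply Summable.of_nonneg_of_le (fun i => norm_nonneg _) (f := fun i => (1 / 2 : ℝ) ^ i)
    · intro i
      refine (hnorm' i).trans ?_
      have := hτgeom 0 i
      rw [zero_add, hτ00, one_mul] at this
      exact this
    · exact summable_geometric_two
  have hsumm : Summable x := hsummN.of_norm
  set z : X := ∑' i, x i with hz
  have hfz : ∀ n, f n z = ∑' i, f n (x i) := by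
    intro n
    rw [hz]
    exact (f n).map_tsum hsumm
  have hfz1 : ∀ i n, f n (x i) ≠ 0 → f n z = f n (x i) := by
    intro i n hn
    rw [hfz]
    exact tsum_eq_single i (fun j hj => hdisj i j n (Ne.symm hj) hn)
  have hfz0 : ∀ n, f n z ≠ 0 → ∃ i, f n (x i) ≠ 0 := by
    intro n hn
    by_contra h
    push Not at h
    apply hn
    rw [hfz]
    simp [h]
  -- the ordering
  have hjlen : ∀ j, j < (Ls (j + 1)).length := fun j => by have := hlen_ge (j + 1); omega
  let K : ℕ → ℕ := fun j => (Ls (j + 1))[j]'(hjlen j)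
  have hK : ∀ i j (h : j < (Ls i).length), K j = (Ls i)[j] := by
    intro i j h
    rcases Nat.le_total i (j + 1) with h1 | h1
    · exact hget i (j + 1) h1 j h (hjlen j)
    · exact (hget (j + 1) i h1 j (hjlen j) h).symm
  have hKinj : Function.Injective K := by
    intro a b hab
    set M := max a b + 1 with hM
    have ha : a < (Ls M).length := lt_of_lt_of_le (by omega) (hlen_ge M)
    have hb2 : b < (Ls M).length := lt_of_lt_of_le (by omega) (hlen_ge M)
    rw [hK M a ha, hK M b hb2] at hab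
    exact (List.Nodup.getElem_inj_iff (hLnd M)).1 hab
  have hKr : ∀ i r, r < N i → K ((Ls i).length + r) = k i r := by
    intro i r hr
    have h1 : (Ls i).length + r < (Ls (i + 1)).length := by rw [hlen]; omega
    rw [hK (i + 1) _ h1]
    simp only [hLsucc i]
    rw [List.getElem_append_right (by omega)]
    simp
  have hpw : ∀ i, (Ls i).Pairwise (fun a b => ‖f b z‖ ≤ ‖f a z‖) ∧
      ∀ a ∈ Ls i, c * τ i ≤ ‖f a z‖ := by
    intro i
    induction i with
    | zero => rw [hL0]; simp
    | succ i ih =>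
      have hfk : ∀ r, r < N i → f (k i r) z = f (k i r) (x i) :=
        fun r hr => hfz1 i _ ((hN' i r).2 hr)
      rw [hLsucc]
      constructor
      · rw [List.pairwise_append]
        refine ⟨ih.1, ?_, ?_⟩
        · rw [List.pairwise_map]
          rw [List.pairwise_iff_getElem]
          intro a b ha hb2 hab
          rw [List.length_range] at ha hb2
          rw [List.getElem_range, List.getElem_range, hfk a ha, hfk b hb2]
          exact (hk' i).antitone a b hab
        · intro a ha b hb2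
          rw [List.mem_map] at hb2
          obtain ⟨r, hr, rfl⟩ := hb2
          rw [List.mem_range] at hr
          rw [hfk r hr]
          calc ‖f (k i r) (x i)‖ ≤ ‖f (k i r)‖ * ‖x i‖ := (f (k i r)).le_opNorm _
            _ ≤ c * τ i := by gcongr; exact hf _; exact hnorm' i
            _ ≤ ‖f a z‖ := ih.2 a ha
      · intro a ha
        rw [List.mem_append] at ha
        rcases ha with ha | ha
        · calc c * τ (i + 1) ≤ c * τ i := by
                have := hτ2' i
                have := hτpos i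
                gcongr
                linarith
            _ ≤ ‖f a z‖ := ih.2 a ha
        · rw [List.mem_map] at ha
          obtain ⟨r, hr, rfl⟩ := ha
          rw [List.mem_range] at hr
          rw [hfk r hr]
          exact hτc' i r hr
  have hKGO : IsGreedyOrdering f z K := by
    refine ⟨hKinj, ?_, ?_⟩
    · intro n hn
      obtain ⟨i, hi⟩ := hfz0 n hn
      obtain ⟨j, hj, hjn⟩ := List.getElem_of_mem (hsupp_in i n hi)
      exact ⟨j, by rw [hK (i + 1) j hj, hjn]⟩
    · intro a b hab
      have ha : a < (Ls (b + 1)).length := hab.trans (hjlen b)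
      rw [hK (b + 1) a ha, hK (b + 1) b (hjlen b)]
      exact List.pairwise_iff_getElem.1 (hpw (b + 1)).1 a b ha (hjlen b) hab
  -- decomposition
  have hXnorm : ∀ i, ‖∑ j ∈ Finset.range i, x j‖ ≤ 2 := by
    intro i
    calc ‖∑ j ∈ Finset.range i, x j‖ ≤ ∑ j ∈ Finset.range i, ‖x j‖ := norm_sum_le _ _
      _ ≤ ∑ j ∈ Finset.range i, (1 / 2 : ℝ) ^ j := by
          apply Finset.sum_le_sum
          intro j _
          refine (hnorm' j).trans ?_
          have := hτgeom 0 j
          rw [zero_add, hτ00, one_mul] at this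
          exact this
      _ ≤ ∑' j, (1 / 2 : ℝ) ^ j :=
          summable_geometric_two.sum_le_tsum _ (fun j _ => by positivity)
      _ = 2 := tsum_geometric_two
  have htail : ∀ i, ‖z - ∑ j ∈ Finset.range (i + 1), x j‖ ≤ 2 * τ (i + 1) := by
    intro i
    have h1 : z - ∑ j ∈ Finset.range (i + 1), x j = ∑' j, x (j + (i + 1)) := by
      rw [hz, ← hsumm.sum_add_tsum_nat_add (i + 1), add_sub_cancel_left]
    rw [h1]
    have h2 : Summable (fun j => ‖x (j + (i + 1))‖) := (summable_nat_add_iff (i + 1)).2 hsummN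
    have h3 : Summable (fun j : ℕ => τ (i + 1) * (1 / 2 : ℝ) ^ j) :=
      summable_geometric_two.mul_left _
    calc ‖∑' j, x (j + (i + 1))‖ ≤ ∑' j, ‖x (j + (i + 1))‖ := norm_tsum_le_tsum_norm h2
      _ ≤ ∑' j : ℕ, τ (i + 1) * (1 / 2 : ℝ) ^ j := by
          apply h2.tsum_le_tsum _ h3
          intro j
          refine (hnorm' _).trans ?_
          rw [add_comm j (i + 1)]
          exact hτgeom (i + 1) j
      _ = 2 * τ (i + 1) := by rw [tsum_mul_left, tsum_geometric_two]; ring
  have hgs : ∀ i j, (Ls i).length ≤ j → ‖greedySum e f z K j - (∑ j ∈ Finset.range i, x j) -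
      greedySum e f (x i) (k i) (j - (Ls i).length)‖ ≤ j * κ * (2 * τ (i + 1)) := by
    intro i j hj
    set M := (Ls i).length with hM
    set Xi := ∑ j ∈ Finset.range i, x j with hXi
    set T := z - ∑ j ∈ Finset.range (i + 1), x j with hT
    have hzT : z = Xi + x i + T := by
      rw [hT, Finset.sum_range_succ, ← hXi]; abel
    have h1 : greedySum e f Xi K j = Xi := by
      rw [greedySum_eq_proj Xi K hKinj j]
      apply proj_eq_of_span hb
      · rw [hXi]
        apply Submodule.sum_mem
        intro a _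
        obtain ⟨s, hs⟩ := hfin' a
        exact span_of_proj s _ hs
      · intro n hn
        rw [hXi, map_sum]
        apply Finset.sum_eq_zero
        intro a ha
        rw [Finset.mem_range] at ha
        by_contra h2
        apply hn
        obtain ⟨b, hb2, hbn⟩ := List.getElem_of_mem (hmono (a + 1) i ha n (hsupp_in a n h2))
        rw [Finset.mem_image]
        refine ⟨b, ?_, ?_⟩
        · rw [Finset.mem_range]; omega
        · rw [hK i b hb2, hbn]
    have h2 : greedySum e f (x i) K j = greedySum e f (x i) (k i) (j - M) := by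
      rw [greedySum_eq_proj (x i) K hKinj j, greedySum_eq_proj (x i) (k i) (hk' i).injective]
      unfold proj
      have h3 : ∀ s : Finset ℕ, ∑ n ∈ s, f n (x i) • e n
          = ∑ n ∈ s.filter (fun n => f n (x i) ≠ 0), f n (x i) • e n := by
        intro s
        symm
        apply Finset.sum_subset (Finset.filter_subset _ _)
        intro n hn hn2
        rw [Finset.mem_filter] at hn2
        push Not at hn2
        rw [hn2 hn, zero_smul]
      rw [h3, h3 ((Finset.range (j - M)).image (k i))]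
      apply Finset.sum_congr _ (fun _ _ => rfl)
      ext n
      simp only [Finset.mem_filter, Finset.mem_image, Finset.mem_range]
      constructor
      · rintro ⟨⟨a, ha, han⟩, hn⟩
        refine ⟨?_, hn⟩
        obtain ⟨r, hr⟩ := (hk' i).support_subset n hn
        have hrN : r < N i := (hN' i r).1 (by rw [hr]; exact hn)
        have h4 := hKr i r hrN
        rw [hr, ← han] at h4
        have h5 := hKinj h4
        exact ⟨r, by omega, hr⟩
      · rintro ⟨⟨r, hr, hrn⟩, hn⟩
        refine ⟨?_, hn⟩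
        have hrN : r < N i := (hN' i r).1 (by rw [hrn]; exact hn)
        exact ⟨M + r, by omega, by rw [← hrn]; exact hKr i r hrN⟩
    have h3 : greedySum e f z K j - Xi - greedySum e f (x i) (k i) (j - M)
        = greedySum e f T K j := by
      conv_lhs => rw [hzT]
      rw [greedySum_add, greedySum_add, h1, h2]
      abel
    rw [h3]
    calc ‖greedySum e f T K j‖ ≤ j * (c * c) * ‖T‖ := greedySum_le he hf hc T K j
      _ ≤ j * κ * (2 * τ (i + 1)) := by
          rw [← hκ]
          gcongr
          exact htail i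
  -- lower bound for the VP means
  have hlower : ∀ i, ((Ls i).length : ℝ) + 1 ≤ ‖vpMean e f z K ((Ls i).length + m i)‖ := by
    intro i
    set M := (Ls i).length with hM
    set μ := M + m i with hμ
    have hμ1 : 1 ≤ μ := by have := hm' i; omega
    have hμpos : (0 : ℝ) < μ := by exact_mod_cast hμ1
    set Xi := ∑ j ∈ Finset.range i, x j with hXi
    set Er : ℕ → X := fun n => greedySum e f z K (μ + n + 1) - Xi -
      greedySum e f (x i) (k i) (μ + n + 1 - M) with hEr
    have hErn : ∀ n ∈ Finset.range μ, ‖Er n‖ ≤ 1 := by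
      intro n hn
      rw [Finset.mem_range] at hn
      refine (hgs i (μ + n + 1) (by omega)).trans ?_
      have h1 : ((μ + n + 1 : ℕ) : ℝ) ≤ 2 * μ := by
        have : μ + n + 1 ≤ 2 * μ := by omega
        exact_mod_cast this
      have h2 := hτm' i
      have h3 : 0 ≤ τ (i + 1) := (hτpos _).le
      calc ((μ + n + 1 : ℕ) : ℝ) * κ * (2 * τ (i + 1)) ≤ (2 * μ) * κ * (2 * τ (i + 1)) := by
            gcongr
        _ = 4 * ((Ls i).length + m i) * (c * c) * τ (i + 1) := by
            rw [hμ, hκ]; push_cast; ring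
        _ ≤ 1 := h2
    have h1 : vSum e f z K μ = vSum e f (x i) (k i) (m i) +
        ∑ n ∈ Finset.range M, greedySum e f (x i) (k i) (m i + (m i + n) + 1) +
        (∑ n ∈ Finset.range μ, Er n) + (μ : 𝕜) • Xi := by
      unfold vSum
      have h2 : ∀ n, greedySum e f z K (μ + n + 1)
          = greedySum e f (x i) (k i) (m i + n + 1) + Er n + Xi := by
        intro n
        simp only [hEr]
        rw [show μ + n + 1 - M = m i + n + 1 by omega]
        abel
      simp only [h2]
      rw [Finset.sum_add_distrib, Finset.sum_add_distrib, Finset.sum_const, Finset.card_range,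
        ← Nat.cast_smul_eq_nsmul 𝕜]
      congr 2
      rw [hμ, add_comm M (m i), Finset.sum_range_add]
    have h2 : ‖∑ n ∈ Finset.range M, greedySum e f (x i) (k i) (m i + (m i + n) + 1)‖ ≤ μ := by
      calc _ ≤ ∑ n ∈ Finset.range M, ‖greedySum e f (x i) (k i) (m i + (m i + n) + 1)‖ :=
            norm_sum_le _ _
        _ ≤ ∑ n ∈ Finset.range M, (2 * μ : ℝ) * κ * τ i := by
            apply Finset.sum_le_sum
            intro n hn
            rw [Finset.mem_range] at hn
            refine (greedySum_le he hf hc _ _ _).trans ?_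
            rw [← hκ]
            have h3 : ((m i + (m i + n) + 1 : ℕ) : ℝ) ≤ 2 * μ := by
              have : m i + (m i + n) + 1 ≤ 2 * μ := by omega
              exact_mod_cast this
            have := hτpos i
            gcongr
            exact hnorm' i
        _ = (2 * (M : ℝ) * κ * τ i) * μ := by
            rw [Finset.sum_const, Finset.card_range, nsmul_eq_mul]; ring
        _ ≤ 1 * μ := by
            gcongr
            exact hτN'' i
        _ = μ := one_mul _
    have h3 : ‖∑ n ∈ Finset.range μ, Er n‖ ≤ μ := by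
      calc _ ≤ ∑ n ∈ Finset.range μ, ‖Er n‖ := norm_sum_le _ _
        _ ≤ ∑ n ∈ Finset.range μ, (1 : ℝ) := Finset.sum_le_sum hErn
        _ = μ := by rw [Finset.sum_const, Finset.card_range, nsmul_eq_mul, mul_one]
    have h4 : ‖(μ : 𝕜) • Xi‖ ≤ μ * 2 := by
      rw [norm_smul, RCLike.norm_natCast]
      gcongr
      exact hXnorm i
    have h5 : ‖vSum e f (x i) (k i) (m i)‖ ≤ ‖vSum e f z K μ‖ + μ + μ + μ * 2 := by
      have h6 : vSum e f (x i) (k i) (m i) = vSum e f z K μ -
          ∑ n ∈ Finset.range M, greedySum e f (x i) (k i) (m i + (m i + n) + 1) -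
          (∑ n ∈ Finset.range μ, Er n) - (μ : 𝕜) • Xi := by rw [h1]; abel
      rw [h6]
      calc _ ≤ ‖vSum e f z K μ -
          ∑ n ∈ Finset.range M, greedySum e f (x i) (k i) (m i + (m i + n) + 1) -
          (∑ n ∈ Finset.range μ, Er n)‖ + ‖(μ : 𝕜) • Xi‖ := norm_sub_le _ _
        _ ≤ (‖vSum e f z K μ -
          ∑ n ∈ Finset.range M, greedySum e f (x i) (k i) (m i + (m i + n) + 1)‖ +
          ‖∑ n ∈ Finset.range μ, Er n‖) + ‖(μ : 𝕜) • Xi‖ := by gcongr; exact norm_sub_le _ _
        _ ≤ ((‖vSum e f z K μ‖ +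
          ‖∑ n ∈ Finset.range M, greedySum e f (x i) (k i) (m i + (m i + n) + 1)‖) +
          ‖∑ n ∈ Finset.range μ, Er n‖) + ‖(μ : 𝕜) • Xi‖ := by gcongr; exact norm_sub_le _ _
        _ ≤ _ := by linarith
    have h6 : ((M : ℝ) + 5) * μ ≤ (1 + (M : ℝ)) * (M + 5) * m i := by
      have h7 : (μ : ℝ) ≤ (1 + M) * m i := by
        have : (1 : ℝ) ≤ m i := by exact_mod_cast hm' i
        have hM0 : (0 : ℝ) ≤ M := by positivity
        rw [hμ]; push_cast
        nlinarith
      calc ((M : ℝ) + 5) * μ ≤ ((M : ℝ) + 5) * ((1 + M) * m i) := by gcongr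
        _ = _ := by ring
    have h7 := hbig' i
    have h8 : ((M : ℝ) + 1) * μ ≤ ‖vSum e f z K μ‖ := by nlinarith
    rw [vpMean_eq z K μ hμ1, norm_smul, norm_inv, RCLike.norm_natCast]
    rw [le_inv_mul_iff₀ hμpos]
    linarith
  -- contradiction
  have hlim := (hVP z K hKGO).norm
  have hev := hlim.eventually (gt_mem_nhds (lt_add_one ‖z‖))
  obtain ⟨n0, hn0⟩ := hev.exists_forall_of_atTop
  obtain ⟨i0, hi0⟩ := exists_nat_gt (‖z‖ + 1)
  set i := max n0 i0 with hi
  have h1 := hlower i
  have h2 := hn0 ((Ls i).length + m i) (by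
    have := hlen_ge i
    omega)
  have h3 : (i : ℝ) ≤ (Ls i).length := by exact_mod_cast hlen_ge i
  have h4 : (i0 : ℝ) ≤ i := by exact_mod_cast le_max_right n0 i0
  linarith

end Pool.Agent.Lib.MP_d7aa4b_an
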