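import Pool.Agent.Lib.MP_d7aa4b_an.Defs

namespace Pool.Agent.Lib.MP_d7aa4b_an

open Filter Topology Finset

variable {𝕜 : Type*} [RCLike 𝕜] {X : Type*} [NormedAddCommGroup X] [NormedSpace 𝕜 X]

/-- projection on a finite set of coordinates -/
noncomputable def proj (e : ℕ → X) (f : ℕ → X →L[𝕜] 𝕜) (s : Finset ℕ) (x : X) : X :=
  ∑ n ∈ s, f n x • e n

/-- sorted list of a finite set by decreasing key -/
lemma exists_sorted (g : ℕ → ℝ) (s : Finset ℕ) : ∃ l : List ℕ, l.Nodup ∧ (∀ n, n ∈ l ↔ n ∈ s) ∧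
    l.Pairwise (fun a b => g b ≤ g a) ∧ l.length = s.card := by
  classical
  let r : ℕ → ℕ → Prop := fun a b => g b ≤ g a
  have : DecidableRel r := fun a b => Classical.dec _
  have : Std.Total r := ⟨fun a b => le_total (g b) (g a)⟩
  have : IsTrans ℕ r := ⟨fun a b c h1 h2 => le_trans h2 h1⟩
  have hperm := List.perm_insertionSort r s.toList
  refine ⟨s.toList.insertionSort r, ?_, ?_, ?_, ?_⟩
  · exact hperm.nodup_iff.2 s.nodup_toList
  · intro n; rw [hperm.mem_iff]; simp
  · exact List.pairwise_insertionSort r s.toList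
  · rw [hperm.length_eq]; simp

/-- extending a greedy list to a greedy ordering -/
lemma exists_ordering {f : ℕ → X →L[𝕜] 𝕜} {y : X} {s : Finset ℕ} (hs : ∀ n, n ∉ s → f n y = 0)
    (l : List ℕ) (hnd : l.Nodup) (hpw : l.Pairwise (fun a b => ‖f b y‖ ≤ ‖f a y‖))
    (hout : ∀ n, n ∉ l → ∀ a ∈ l, ‖f n y‖ ≤ ‖f a y‖) :
    ∃ k : ℕ → ℕ, IsGreedyOrdering f y k ∧ ∀ j (hj : j < l.length), k j = l[j] := by
  classical
  obtain ⟨r, hrnd, hrmem, hrpw, -⟩ := exists_sorted (fun n => ‖f n y‖)
    (s.filter (fun n => n ∉ l))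
  set L := l ++ r with hL
  have hLnd : L.Nodup := by
    rw [hL, List.nodup_append]
    refine ⟨hnd, hrnd, ?_⟩
    intro a ha b hb hab
    subst hab
    rw [hrmem, Finset.mem_filter] at hb
    exact hb.2 ha
  have hLpw : L.Pairwise (fun a b => ‖f b y‖ ≤ ‖f a y‖) := by
    rw [hL, List.pairwise_append]
    refine ⟨hpw, hrpw, ?_⟩
    intro a ha b hb
    rw [hrmem, Finset.mem_filter] at hb
    exact hout b hb.2 a ha
  have hLs : ∀ n, n ∉ L → f n y = 0 := by
    intro n hn
    by_contra h
    apply hn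
    rw [hL, List.mem_append, hrmem, Finset.mem_filter]
    have : n ∈ s := by by_contra h2; exact h (hs n h2)
    by_cases hnl : n ∈ l
    · exact Or.inl hnl
    · exact Or.inr ⟨this, hnl⟩
  let p : ℕ → Prop := fun n => n ∉ L
  have hinf : {n | p n}.Infinite := by
    have : {n | p n} = (L.toFinset : Set ℕ)ᶜ := by ext n; simp [p]
    rw [this]
    exact (Finset.finite_toSet _).infinite_compl
  have hmemp : ∀ n, Nat.nth p n ∉ L := fun n => Nat.nth_mem_of_infinite hinf n
  let k : ℕ → ℕ := fun j => if h : j < L.length then L[j] else Nat.nth p (j - L.length)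
  have hk1 : ∀ j (h : j < L.length), k j = L[j] := fun j h => by simp only [k, dif_pos h]
  have hk2 : ∀ j, ¬ j < L.length → k j = Nat.nth p (j - L.length) :=
    fun j h => by simp only [k, dif_neg h]
  refine ⟨k, ⟨?_, ?_, ?_⟩, ?_⟩
  · intro i j hij
    by_cases hi : i < L.length <;> by_cases hj : j < L.length
    · rw [hk1 i hi, hk1 j hj] at hij
      exact (List.Nodup.getElem_inj_iff hLnd).1 hij
    · rw [hk1 i hi, hk2 j hj] at hij
      exact absurd (hij ▸ List.getElem_mem hi) (hmemp _)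
    · rw [hk2 i hi, hk1 j hj] at hij
      exact absurd (hij ▸ List.getElem_mem hj) (hmemp _)
    · rw [hk2 i hi, hk2 j hj] at hij
      have := Nat.nth_injective hinf hij
      omega
  · intro n hn
    have hnL : n ∈ L := by by_contra h; exact hn (hLs n h)
    obtain ⟨j, hj, hjn⟩ := List.getElem_of_mem hnL
    exact ⟨j, by rw [hk1 j hj, hjn]⟩
  · intro i j hij
    by_cases hj : j < L.length
    · have hi : i < L.length := hij.trans hj
      rw [hk1 i hi, hk1 j hj]
      exact List.pairwise_iff_getElem.1 hLpw i j hi hj hij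
    · rw [hk2 j hj, hLs _ (hmemp _)]
      simp
  · intro j hj
    have hjL : j < L.length := by rw [hL, List.length_append]; omega
    rw [hk1 j hjL]
    simp only [hL]
    exact List.getElem_append_left hj

end Pool.Agent.Lib.MP_d7aa4b_an
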