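import Pool.Agent.Lib.MP_d7aa4b_an.Transfer

namespace Pool.Agent.Lib.MP_d7aa4b_an

open Filter Topology Finset

variable {𝕜 : Type*} [RCLike 𝕜] {X : Type*} [NormedAddCommGroup X] [NormedSpace 𝕜 X]
variable {e : ℕ → X} {f : ℕ → X →L[𝕜] 𝕜}

lemma fin_bound {c KV : ℝ} (hb : ∀ i j, f i (e j) = if i = j then 1 else 0)
    (he : ∀ n, ‖e n‖ ≤ c) (hf : ∀ n, ‖f n‖ ≤ c) (hc : 1 ≤ c) (hUV : UV e f KV) :
    ∃ L : ℝ, 0 ≤ L ∧ ∀ (y : X) (s : Finset ℕ), proj e f s y = y → ∀ A : Finset ℕ,
      (∀ i ∈ A, ∀ j, j ∉ A → ‖f j y‖ ≤ ‖f i y‖) → ‖proj e f A y‖ ≤ L * ‖y‖ := by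
  classical
  obtain ⟨L, hL⟩ := core (2 * (KV + 3 * (c * c))) c
  refine ⟨max L 0, le_max_right _ _, ?_⟩
  intro y s hs A hA
  let ε : s → 𝕜 := fun i => if f i y = 0 then 1 else f i y / ((‖f i y‖ : ℝ) : 𝕜)
  let u : s → ℝ := fun i => ‖f i y‖
  have hε : ∀ i, ‖ε i‖ = 1 := by
    intro i
    simp only [ε]
    split_ifs with h
    · simp
    · rw [norm_div, RCLike.norm_ofReal, abs_of_nonneg (norm_nonneg _)]
      exact div_self (norm_ne_zero_iff.2 h)
  have hue : ∀ i : s, ((u i : ℝ) : 𝕜) * ε i = f i y := by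
    intro i
    simp only [ε, u]
    split_ifs with h
    · rw [h]; simp
    · have : ((‖f i y‖ : ℝ) : 𝕜) ≠ 0 := by
        rw [Ne, RCLike.ofReal_eq_zero]; exact norm_ne_zero_iff.2 h
      field_simp
  have hu : ∀ i, 0 ≤ u i := fun i => norm_nonneg _
  have hout : ∀ n, n ∉ s → f n y = 0 := by
    intro n hn
    rw [← hs, coord_proj hb, if_neg hn]
  have hvy : vec e s ε u = y := by
    unfold vec
    simp only [hue]
    rw [Finset.sum_coe_sort s (fun n => f n y • e n)]
    exact hs
  have H := hyp_of_uv hb he hf hc hUV s ε hε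
  have h1 := hL s (semi e s ε) H u hu (Finset.univ.filter (fun i : s => (i : ℕ) ∈ A))
    (by
      intro i hi j hj
      rw [Finset.mem_filter] at hi hj
      push Not at hj
      exact hA i hi.2 j (hj (Finset.mem_univ _)))
  rw [semi_apply, semi_apply, hvy] at h1
  have h2 : vec e s ε (restr (Finset.univ.filter (fun i : s => (i : ℕ) ∈ A)) u)
      = proj e f A y := by
    have h3 : proj e f A y = ∑ n ∈ s, if n ∈ A then f n y • e n else 0 := by
      unfold proj
      rw [← Finset.sum_filter]
      symm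
      apply Finset.sum_subset
      · intro n hn; exact (Finset.mem_filter.1 hn).2
      · intro n hn hn2
        have : n ∉ s := fun h => hn2 (Finset.mem_filter.2 ⟨h, hn⟩)
        rw [hout n this, zero_smul]
    rw [h3, ← Finset.sum_coe_sort s]
    unfold vec
    apply Finset.sum_congr rfl
    intro i _
    simp only [restr, Finset.mem_filter, Finset.mem_univ, true_and]
    by_cases hi : (i : ℕ) ∈ A
    · simp only [if_pos hi, hue]
    · simp only [if_neg hi]; simp
  rw [h2] at h1
  calc ‖proj e f A y‖ ≤ L * ‖y‖ := h1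
    _ ≤ max L 0 * ‖y‖ := by gcongr; exact le_max_left _ _

/-- elements of the span are finitely supported -/
lemma exists_fin (hb : ∀ i j, f i (e j) = if i = j then 1 else 0) (y : X)
    (hy : y ∈ Submodule.span 𝕜 (Set.range e)) : ∃ s : Finset ℕ, proj e f s y = y := by
  classical
  rw [Finsupp.mem_span_range_iff_exists_finsupp] at hy
  obtain ⟨a, ha⟩ := hy
  refine ⟨a.support, ?_⟩
  have h1 : ∀ n ∈ a.support, f n y = a n := by
    intro n hn
    rw [← ha]
    simp only [Finsupp.sum, map_sum, map_smul, hb, smul_eq_mul, mul_ite, mul_one, mul_zero]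
    rw [Finset.sum_ite_eq]
    rw [if_pos hn]
  unfold proj
  rw [Finset.sum_congr rfl (fun n hn => by rw [h1 n hn])]
  exact ha

lemma greedySum_eq_proj (x : X) (k : ℕ → ℕ) (hk : Function.Injective k) (m : ℕ) :
    greedySum e f x k m = proj e f ((Finset.range m).image k) x := by
  classical
  unfold greedySum proj
  rw [Finset.sum_image (fun a _ b _ h => hk h)]

theorem qg_of_uv {c KV : ℝ} (hb : ∀ i j, f i (e j) = if i = j then 1 else 0)
    (hd : Dense (Submodule.span 𝕜 (Set.range e) : Set X))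
    (he : ∀ n, ‖e n‖ ≤ c) (hf : ∀ n, ‖f n‖ ≤ c) (hc : 1 ≤ c) (hUV : UV e f KV) :
    IsQuasiGreedy e f := by
  classical
  obtain ⟨L, hL0, hL⟩ := fin_bound hb he hf hc hUV
  refine ⟨L, ?_⟩
  intro x k hk m
  rcases Nat.eq_zero_or_pos m with hm0 | hmpos
  · subst hm0; simp [greedySum]; positivity
  set A := (Finset.range m).image k with hA
  have hAne : A.Nonempty := by
    rw [hA]; exact (Finset.nonempty_range_iff.2 (by omega)).image _
  have hgreedy : ∀ i ∈ A, ∀ j, j ∉ A → ‖f j x‖ ≤ ‖f i x‖ := by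
    intro i hi j hj
    rw [hA, Finset.mem_image] at hi
    obtain ⟨a, ha, rfl⟩ := hi
    rw [Finset.mem_range] at ha
    by_cases h0 : f j x = 0
    · rw [h0]; simp
    · obtain ⟨b, hbj⟩ := hk.support_subset j h0
      have hbm : ¬ b < m := by
        intro hh
        apply hj
        rw [hA, Finset.mem_image]
        exact ⟨b, Finset.mem_range.2 hh, hbj⟩
      rw [← hbj]
      exact hk.antitone a b (by omega)
  rw [greedySum_eq_proj x k hk.injective m, ← hA]
  -- approximation
  have hcard : (A.card : ℝ) = A.card := rfl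
  have key : ∀ δ : ℝ, 0 < δ → ‖proj e f A x‖ ≤
      L * ‖x‖ + (L * (1 + 2 * A.card * (c * c)) + A.card * (c * c)) * δ := by
    intro δ hδ
    obtain ⟨y0, hy0mem, hy0⟩ := Metric.dense_iff.1 hd x δ hδ
    have hdist : ‖x - y0‖ ≤ δ := by
      rw [Metric.mem_ball, dist_eq_norm, ← norm_neg, neg_sub] at hy0mem
      exact hy0mem.le
    obtain ⟨s0, hs0⟩ := exists_fin (f := f) hb y0 hy0
    let sg : ℕ → 𝕜 := fun i => if f i x = 0 then 1 else f i x / ((‖f i x‖ : ℝ) : 𝕜)
    have hsg : ∀ i, ‖sg i‖ = 1 := by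
      intro i
      simp only [sg]
      split_ifs with h
      · simp
      · rw [norm_div, RCLike.norm_ofReal, abs_of_nonneg (norm_nonneg _)]
        exact div_self (norm_ne_zero_iff.2 h)
    have hsgx : ∀ i, f i x = ((‖f i x‖ : ℝ) : 𝕜) * sg i := by
      intro i
      simp only [sg]
      split_ifs with h
      · rw [h]; simp
      · have : ((‖f i x‖ : ℝ) : 𝕜) ≠ 0 := by
          rw [Ne, RCLike.ofReal_eq_zero]; exact norm_ne_zero_iff.2 h
        field_simp
    let w : ℕ → 𝕜 := fun i => f i (x - y0) + ((c * δ : ℝ) : 𝕜) * sg i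
    set y : X := y0 + ∑ i ∈ A, w i • e i with hy
    have hfy : ∀ n, f n y = if n ∈ A then f n x + ((c * δ : ℝ) : 𝕜) * sg n else f n y0 := by
      intro n
      rw [hy, map_add]
      simp only [map_sum, map_smul, hb, smul_eq_mul, mul_ite, mul_one, mul_zero]
      rw [Finset.sum_ite_eq]
      split_ifs with h
      · simp only [w, map_sub]; ring
      · ring
    have hfxy : ∀ n, ‖f n (x - y0)‖ ≤ c * δ := by
      intro n
      calc ‖f n (x - y0)‖ ≤ ‖f n‖ * ‖x - y0‖ := (f n).le_opNorm _
        _ ≤ c * δ := by gcongr; exact hf n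
    have hysupp : proj e f (s0 ∪ A) y = y := by
      have h1 : y ∈ Submodule.span 𝕜 (Set.range e) := by
        rw [hy]
        apply Submodule.add_mem _ hy0
        apply Submodule.sum_mem
        intro i _
        exact Submodule.smul_mem _ _ (Submodule.subset_span ⟨i, rfl⟩)
      obtain ⟨s1, hs1⟩ := exists_fin (f := f) hb y h1
      have h2 : ∀ n, n ∉ s0 ∪ A → f n y = 0 := by
        intro n hn
        rw [Finset.mem_union] at hn
        push Not at hn
        rw [hfy, if_neg hn.2, ← hs0, coord_proj hb, if_neg hn.1]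
      have h3 : ∀ n, n ∉ s1 → f n y = 0 := by
        intro n hn
        rw [← hs1, coord_proj hb, if_neg hn]
      have h4 : proj e f s1 y = proj e f (s1 ∪ (s0 ∪ A)) y := by
        unfold proj
        apply Finset.sum_subset Finset.subset_union_left
        intro n _ hn
        rw [h3 n hn, zero_smul]
      have h5 : proj e f (s0 ∪ A) y = proj e f (s1 ∪ (s0 ∪ A)) y := by
        unfold proj
        apply Finset.sum_subset Finset.subset_union_right
        intro n _ hn
        rw [h2 n hn, zero_smul]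
      rw [h5, ← h4, hs1]
    have hnormA : ∀ i ∈ A, ‖f i y‖ = ‖f i x‖ + c * δ := by
      intro i hi
      rw [hfy, if_pos hi]
      have h1 : f i x + ((c * δ : ℝ) : 𝕜) * sg i = ((‖f i x‖ + c * δ : ℝ) : 𝕜) * sg i := by
        conv_lhs => rw [hsgx i]
        push_cast
        ring
      rw [h1, norm_mul, hsg, RCLike.norm_ofReal, abs_of_nonneg (by positivity), mul_one]
    have hgr : ∀ i ∈ A, ∀ j, j ∉ A → ‖f j y‖ ≤ ‖f i y‖ := by
      intro i hi j hj
      rw [hnormA i hi, hfy, if_neg hj]
      have h1 : f j y0 = f j x - f j (x - y0) := by rw [map_sub]; ring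
      rw [h1]
      calc ‖f j x - f j (x - y0)‖ ≤ ‖f j x‖ + ‖f j (x - y0)‖ := norm_sub_le _ _
        _ ≤ ‖f i x‖ + c * δ := add_le_add (hgreedy i hi j hj) (hfxy j)
    have hLy := hL y (s0 ∪ A) hysupp A hgr
    have hyx : ‖y‖ ≤ ‖x‖ + (1 + 2 * A.card * (c * c)) * δ := by
      have h1 : ‖∑ i ∈ A, w i • e i‖ ≤ A.card * (2 * (c * δ) * c) := by
        calc ‖∑ i ∈ A, w i • e i‖ ≤ ∑ i ∈ A, ‖w i • e i‖ := norm_sum_le _ _
          _ ≤ ∑ i ∈ A, 2 * (c * δ) * c := by
              apply Finset.sum_le_sum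
              intro i _
              rw [norm_smul]
              have h2 : ‖w i‖ ≤ 2 * (c * δ) := by
                calc ‖w i‖ ≤ ‖f i (x - y0)‖ + ‖((c * δ : ℝ) : 𝕜) * sg i‖ := norm_add_le _ _
                  _ ≤ c * δ + c * δ := by
                      apply add_le_add (hfxy i)
                      rw [norm_mul, hsg, RCLike.norm_ofReal, abs_of_nonneg (by positivity),
                        mul_one]
                  _ = _ := by ring
              gcongr
              exact he i
          _ = A.card * (2 * (c * δ) * c) := by rw [Finset.sum_const, nsmul_eq_mul]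
      calc ‖y‖ ≤ ‖y0‖ + ‖∑ i ∈ A, w i • e i‖ := by rw [hy]; exact norm_add_le _ _
        _ ≤ (‖x‖ + δ) + A.card * (2 * (c * δ) * c) := by
            have h3 : ‖y0‖ ≤ ‖x‖ + δ := by
              have : y0 = x - (x - y0) := by abel
              rw [this]
              exact (norm_sub_le _ _).trans (by linarith)
            linarith
        _ = _ := by ring
    have hpx : ‖proj e f A x‖ ≤ ‖proj e f A y‖ + A.card * (c * c) * δ := by
      have h1 : proj e f A x = proj e f A y - ∑ i ∈ A, (((c * δ : ℝ) : 𝕜) * sg i) • e i := by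
        unfold proj
        rw [← Finset.sum_sub_distrib]
        apply Finset.sum_congr rfl
        intro i hi
        rw [hfy, if_pos hi, ← sub_smul]
        congr 1
        ring
      have h2 : ‖∑ i ∈ A, (((c * δ : ℝ) : 𝕜) * sg i) • e i‖ ≤ A.card * (c * c) * δ := by
        calc ‖∑ i ∈ A, (((c * δ : ℝ) : 𝕜) * sg i) • e i‖
            ≤ ∑ i ∈ A, ‖(((c * δ : ℝ) : 𝕜) * sg i) • e i‖ := norm_sum_le _ _
          _ ≤ ∑ i ∈ A, c * δ * c := by
              apply Finset.sum_le_sum
              intro i _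
              rw [norm_smul, norm_mul, hsg, RCLike.norm_ofReal, abs_of_nonneg (by positivity),
                mul_one]
              gcongr
              exact he i
          _ = A.card * (c * c) * δ := by rw [Finset.sum_const, nsmul_eq_mul]; ring
      rw [h1]
      exact (norm_sub_le _ _).trans (by linarith)
    calc ‖proj e f A x‖ ≤ ‖proj e f A y‖ + A.card * (c * c) * δ := hpx
      _ ≤ L * (‖x‖ + (1 + 2 * A.card * (c * c)) * δ) + A.card * (c * c) * δ := by
          have := mul_le_mul_of_nonneg_left hyx hL0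
          linarith
      _ = _ := by ring
  set C1 : ℝ := L * (1 + 2 * A.card * (c * c)) + A.card * (c * c) with hC1
  have hC10 : 0 ≤ C1 := by positivity
  apply le_of_forall_pos_le_add
  intro η hη
  have h1 := key (η / (C1 + 1)) (by positivity)
  refine h1.trans ?_
  have h2 : C1 * (η / (C1 + 1)) ≤ η := by
    rw [mul_div_assoc', div_le_iff₀ (by positivity)]
    nlinarith
  linarith

end Pool.Agent.Lib.MP_d7aa4b_an
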