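import Pool.Agent.Lib.MP_d7aa4b_an.Core

namespace Pool.Agent.Lib.MP_d7aa4b_an

open Finset

variable {ι : Type*} [Fintype ι] [DecidableEq ι]

/-- polynomial bounds -/
noncomputable def PiC (K φ S : ℝ) : ℝ :=
  φ * ((1 + 24 * S * K) + (1 + 24 * S * K) * (1 + φ * (1 + 24 * S * K)))

noncomputable def QC (K c φ S : ℝ) : ℝ :=
  (3 * K + 13 * K * (3 + 3 * K) + 4) + (2 + 4 * S) * (c * c) +
    (8 * S * K * (1 + PiC K φ S) + 2 * PiC K φ S)

lemma PiC_nonneg {K φ S : ℝ} (hK : 0 ≤ K) (hφ : 0 ≤ φ) (hS : 0 ≤ S) : 0 ≤ PiC K φ S := by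
  unfold PiC; positivity

omit [Fintype ι] in
/-- Case 1: many large coordinates. -/
lemma case_one {N : Seminorm ℝ (ι → ℝ)} {K c : ℝ} (H : Hyp N K c) (S : ℕ)
    (hL : ∀ u : ι → ℝ, (∀ i, 0 ≤ u i) → ∀ A : Finset ι, (∀ i ∈ A, ∀ j, j ∉ A → u j ≤ u i) →
      N (restr A u) ≤ 2 ^ S * N u)
    (u : ι → ℝ) (hu : ∀ i, 0 ≤ u i) (A : Finset ι) (hA : ∀ i ∈ A, ∀ j, j ∉ A → u j ≤ u i)
    (t : ℝ) (ht : 0 < t) (htA : ∀ i ∈ A, t ≤ u i) (htA' : ∀ j, j ∉ A → u j ≤ t)
    (Ah : Finset ι) (hAh : Ah = A.filter (fun i => 2 ^ (2 * S) * t ≤ u i))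
    (hcard : A.card ≤ 2 * Ah.card) (hb : 2 ≤ Ah.card) :
    N (restr A u) ≤ (3 * K + 13 * K * (3 + 3 * K) + 4) * N u := by
  classical
  have hK := H.K1
  have hN : 0 ≤ N u := apply_nonneg N u
  have hAhA : Ah ⊆ A := by rw [hAh]; exact Finset.filter_subset _ _
  have hAhg : ∀ i ∈ Ah, ∀ j, j ∉ Ah → u j ≤ u i := by
    intro i hi j hj
    have hiA := hAhA hi
    by_cases hjA : j ∈ A
    · rw [hAh, Finset.mem_filter] at hi hj
      push Not at hj
      exact (hj hjA).le.trans hi.2
    · exact hA i hiA j hjA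
  obtain ⟨P, hPA, hPk, hP⟩ := split_top u Ah (Ah.card / 2) (by omega)
  set B := Ah \ P with hB
  have hBcard : B.card = Ah.card - Ah.card / 2 := by
    rw [hB, Finset.card_sdiff_of_subset hPA, hPk]
  have hdisj : Disjoint P B := by rw [hB]; exact Finset.disjoint_sdiff
  have hBne : B.Nonempty := by rw [← Finset.card_pos]; omega
  have hmemB : ∀ i, i ∈ B ↔ i ∈ Ah ∧ i ∉ P := by intro i; rw [hB, Finset.mem_sdiff]
  obtain ⟨ρ, hρP, hρB, hρ0, hρN⟩ := H.tb u hu P B hdisj hBne
    (by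
      intro i hi j hj
      by_cases hjA : j ∈ Ah
      · exact hP i hi j hjA hj
      · exact hAhg i (hPA hi) j hjA)
    (by
      intro i hi j hj hjB
      have : j ∉ Ah := fun hh => hjB ((hmemB j).2 ⟨hh, hj⟩)
      exact hAhg i ((hmemB i).1 hi).1 j this)
  have hρ01 : ∀ i, 0 ≤ ρ i ∧ ρ i ≤ 1 := by
    intro i
    by_cases h1 : i ∈ P
    · rw [hρP i h1]; norm_num
    · by_cases h2 : i ∈ B
      · exact hρB i h2
      · rw [hρ0 i h1 h2]; norm_num
  have hBpos : (0 : ℝ) < B.card := by exact_mod_cast Finset.card_pos.2 hBne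
  have hρN' : N (fun i => ρ i * u i) ≤ 3 * K * N u := by
    have h1 : (2 * (P.card : ℝ) + B.card) ≤ 3 * B.card := by
      have : 2 * P.card + B.card ≤ 3 * B.card := by omega
      exact_mod_cast this
    have h2 : (B.card : ℝ) * N (fun i => ρ i * u i) ≤ B.card * (3 * K * N u) := by
      calc (B.card : ℝ) * N (fun i => ρ i * u i) ≤ K * (2 * P.card + B.card) * N u := hρN
        _ ≤ K * (3 * B.card) * N u := by gcongr
        _ = B.card * (3 * K * N u) := by ring
    exact le_of_mul_le_mul_left h2 hBpos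
  set y : ι → ℝ := fun i => (1 - ρ i) * u i with hy
  have hy0 : ∀ i, 0 ≤ y i := fun i => mul_nonneg (by linarith [(hρ01 i).2]) (hu i)
  have hyu : ∀ i, y i ≤ u i := fun i => by
    have := mul_nonneg (hρ01 i).1 (hu i)
    simp only [hy]; linarith
  have hyP : ∀ i ∈ P, y i = 0 := fun i hi => by simp only [hy]; rw [hρP i hi]; ring
  have hyeq : y = u - (fun i => ρ i * u i) := by
    funext i; simp only [hy, Pi.sub_apply]; ring
  have hyN : N y ≤ (1 + 3 * K) * N u := by
    rw [hyeq]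
    calc N (u - (fun i => ρ i * u i)) ≤ N u + N (fun i => ρ i * u i) := map_sub_le_add N _ _
      _ ≤ _ := by linarith
  -- flat vectors inside Ah
  have hflat : ∀ E ⊆ Ah, N (flat E t) ≤ 2 * N u := by
    intro E hE
    have h1 := trunc N (2 ^ S) (by positivity) hL u hu Ah hAhg (2 ^ (2 * S)) t (by positivity) ht
      (by intro i hi; rw [hAh, Finset.mem_filter] at hi; exact hi.2) E hE
    have h2 : (2 : ℝ) / 2 ^ (2 * S) * 2 ^ S * 2 ^ S = 2 := by
      rw [pow_mul', pow_two]
      field_simp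
    rw [h2] at h1
    exact h1
  set x2 : ι → ℝ := y + flat P t with hx2
  have hx2N : N x2 ≤ (3 + 3 * K) * N u := by
    calc N x2 ≤ N y + N (flat P t) := map_add_le_add N _ _
      _ ≤ (1 + 3 * K) * N u + 2 * N u := add_le_add hyN (hflat P hPA)
      _ = _ := by ring
  have hx2P : ∀ i ∈ P, x2 i = t := by
    intro i hi; simp only [hx2, Pi.add_apply, flat, hyP i hi, if_pos hi, zero_add]
  have hx2P' : ∀ i, i ∉ P → x2 i = y i := by
    intro i hi; simp only [hx2, Pi.add_apply, flat, if_neg hi, add_zero]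
  have hx20 : ∀ i, 0 ≤ x2 i := by
    intro i
    by_cases h1 : i ∈ P
    · rw [hx2P i h1]; exact ht.le
    · rw [hx2P' i h1]; exact hy0 i
  set B' := (A \ P).filter (fun i => t ≤ y i) with hB'
  set E' := (A \ P).filter (fun i => ¬ t ≤ y i) with hE'
  have hmemB' : ∀ i, i ∈ B' ↔ (i ∈ A ∧ i ∉ P) ∧ t ≤ y i := by
    intro i; rw [hB', Finset.mem_filter, Finset.mem_sdiff]
  have hmemE' : ∀ i, i ∈ E' ↔ (i ∈ A ∧ i ∉ P) ∧ ¬ t ≤ y i := by
    intro i; rw [hE', Finset.mem_filter, Finset.mem_sdiff]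
  have hPne : P.Nonempty := by rw [← Finset.card_pos]; omega
  have hlow : ∀ j, j ∉ B' → x2 j ≤ t := by
    intro j hj
    by_cases h1 : j ∈ P
    · rw [hx2P j h1]
    · rw [hx2P' j h1]
      by_cases h2 : j ∈ A
      · rw [hmemB'] at hj
        push Not at hj
        exact (hj ⟨h2, h1⟩).le
      · exact (hyu j).trans (htA' j h2)
  obtain ⟨ρ2, hρ2P, hρ2B, hρ20, hρ2N⟩ := H.tb x2 hx20 B' P
    (by
      rw [Finset.disjoint_left]
      intro i hi hi2
      rw [hmemB'] at hi
      exact hi.1.2 hi2) hPne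
    (by
      intro i hi j hj
      have h1 := (hmemB' i).1 hi
      rw [hx2P' i h1.1.2]
      exact (hlow j hj).trans h1.2)
    (by
      intro i hi j hj _
      rw [hx2P i hi]
      exact hlow j hj)
  have hPpos : (0 : ℝ) < P.card := by exact_mod_cast Finset.card_pos.2 hPne
  have hB'card : B'.card ≤ A.card := by
    apply Finset.card_le_card
    intro i hi
    exact ((hmemB' i).1 hi).1.1
  have hρ2N' : N (fun i => ρ2 i * x2 i) ≤ 13 * K * ((3 + 3 * K) * N u) := by
    have h1 : (2 * (B'.card : ℝ) + P.card) ≤ 13 * P.card := by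
      have : 2 * B'.card + P.card ≤ 13 * P.card := by omega
      exact_mod_cast this
    have h2 : (P.card : ℝ) * N (fun i => ρ2 i * x2 i) ≤ P.card * (13 * K * N x2) := by
      have hNx2 : 0 ≤ N x2 := apply_nonneg N x2
      calc (P.card : ℝ) * N (fun i => ρ2 i * x2 i) ≤ K * (2 * B'.card + P.card) * N x2 := hρ2N
        _ ≤ K * (13 * P.card) * N x2 := by gcongr
        _ = P.card * (13 * K * N x2) := by ring
    have h3 := le_of_mul_le_mul_left h2 hPpos
    calc _ ≤ 13 * K * N x2 := h3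
      _ ≤ _ := by gcongr
  have hN1 : N (restr P (fun i => ρ2 i * t)) ≤ 2 * N u := by
    apply box_bound N t _ ht
    · intro i hi
      have := hρ2B i hi
      constructor
      · exact mul_nonneg this.1 ht.le
      · nlinarith
    · intro E hE
      exact hflat E (hE.trans hPA)
  have hN2 : N (restr B' y) ≤ 13 * K * ((3 + 3 * K) * N u) + 2 * N u := by
    have e : restr B' y = (fun i => ρ2 i * x2 i) - restr P (fun i => ρ2 i * t) := by
      funext i
      simp only [restr, Pi.sub_apply]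
      by_cases h1 : i ∈ P
      · have h2 : i ∉ B' := fun hh => ((hmemB' i).1 hh).1.2 h1
        simp only [h1, h2, if_true, if_false, hx2P i h1]; ring
      · by_cases h2 : i ∈ B'
        · simp only [h1, h2, if_true, if_false, hx2P' i h1, hρ2P i h2]; ring
        · simp only [h1, h2, if_false, hρ20 i h2 h1]; ring
    rw [e]
    exact (map_sub_le_add N _ _).trans (add_le_add hρ2N' hN1)
  have hE'Ah : E' ⊆ Ah := by
    intro i hi
    have h1 := (hmemE' i).1 hi
    by_contra hiA
    have h2 : i ∉ B := fun hh => hiA ((hmemB i).1 hh).1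
    have h3 : y i = u i := by simp only [hy]; rw [hρ0 i h1.1.2 h2]; ring
    apply h1.2
    rw [h3]
    exact htA i h1.1.1
  have hN3 : N (restr E' y) ≤ 2 * N u := by
    apply box_bound N t _ ht
    · intro i hi
      exact ⟨hy0 i, (not_le.1 ((hmemE' i).1 hi).2).le⟩
    · intro E hE
      exact hflat E (hE.trans hE'Ah)
  have e : restr A u = (fun i => ρ i * u i) + (restr B' y + restr E' y) := by
    funext i
    simp only [restr, Pi.add_apply]
    by_cases hiA : i ∈ A
    · by_cases h1 : i ∈ P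
      · have h2 : i ∉ B' := fun hh => ((hmemB' i).1 hh).1.2 h1
        have h3 : i ∉ E' := fun hh => ((hmemE' i).1 hh).1.2 h1
        simp only [hiA, h2, h3, if_true, if_false, hρP i h1]; ring
      · by_cases h4 : t ≤ y i
        · have h2 : i ∈ B' := (hmemB' i).2 ⟨⟨hiA, h1⟩, h4⟩
          have h3 : i ∉ E' := fun hh => ((hmemE' i).1 hh).2 h4
          simp only [hiA, h2, h3, if_true, if_false, hy]; ring
        · have h2 : i ∉ B' := fun hh => h4 ((hmemB' i).1 hh).2
          have h3 : i ∈ E' := (hmemE' i).2 ⟨⟨hiA, h1⟩, h4⟩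
          simp only [hiA, h2, h3, if_true, if_false, hy]; ring
    · have h1 : i ∉ P := fun hh => hiA (hAhA (hPA hh))
      have h1' : i ∉ B := fun hh => hiA (hAhA ((hmemB i).1 hh).1)
      have h2 : i ∉ B' := fun hh => hiA ((hmemB' i).1 hh).1.1
      have h3 : i ∉ E' := fun hh => hiA ((hmemE' i).1 hh).1.1
      simp only [hiA, h2, h3, if_false, hρ0 i h1 h1']; ring
  rw [e]
  calc N ((fun i => ρ i * u i) + (restr B' y + restr E' y))
      ≤ N (fun i => ρ i * u i) + (N (restr B' y) + N (restr E' y)) :=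
        (map_add_le_add N _ _).trans (add_le_add le_rfl (map_add_le_add N _ _))
    _ ≤ 3 * K * N u + ((13 * K * ((3 + 3 * K) * N u) + 2 * N u) + 2 * N u) :=
        add_le_add hρN' (add_le_add hN2 hN3)
    _ = (3 * K + 13 * K * (3 + 3 * K) + 4) * N u := by ring


/-- Case 2: a big level. -/
lemma case_two {N : Seminorm ℝ (ι → ℝ)} {K c : ℝ} (H : Hyp N K c) (S : ℕ) (r : ℕ)
    (hr : (1 - 1 / (2 * K)) ^ r ≤ 1 / 2)
    (u : ι → ℝ) (hu : ∀ i, 0 ≤ u i) (A : Finset ι) (hA : ∀ i ∈ A, ∀ j, j ∉ A → u j ≤ u i)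
    (t : ℝ) (ht : 0 < t) (htA : ∀ i ∈ A, t ≤ u i) (htA' : ∀ j, j ∉ A → u j ≤ t)
    (s : ℕ) (Lv : Finset ι)
    (hLv : Lv = A.filter (fun i => 2 ^ s * t ≤ u i ∧ u i < 2 ^ (s + 1) * t))
    (hcard : A.card ≤ 4 * S * Lv.card) (hn : 2 ≤ Lv.card) :
    N (restr A u) ≤ (8 * S * K * (1 + PiC K (phi K r) S) + 2 * PiC K (phi K r) S) * N u := by
  classical
  have hK := H.K1
  have hN : 0 ≤ N u := apply_nonneg N u
  set φ := phi K r with hφ
  have hφ0 : 0 ≤ φ := phi_nonneg hK r
  set Hh : ℝ := 2 ^ (s + 1) * t with hHh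
  have hHh2 : Hh = 2 * (2 ^ s * t) := by rw [hHh, pow_succ]; ring
  have hHpos : 0 < Hh := by positivity
  have htH : t ≤ Hh := by
    have : (1 : ℝ) ≤ 2 ^ (s + 1) := one_le_pow₀ (by norm_num)
    nlinarith
  have hmemLv : ∀ i, i ∈ Lv ↔ i ∈ A ∧ (2 ^ s * t ≤ u i ∧ u i < Hh) := by
    intro i; rw [hLv, Finset.mem_filter]
  have hLvA : Lv ⊆ A := by rw [hLv]; exact Finset.filter_subset _ _
  set P : Finset ι := A.filter (fun i => Hh ≤ u i) with hP
  have hmemP : ∀ i, i ∈ P ↔ i ∈ A ∧ Hh ≤ u i := by intro i; rw [hP, Finset.mem_filter]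
  have hPLv : Disjoint P Lv := by
    rw [Finset.disjoint_left]
    intro i hi hi2
    have h1 := ((hmemP i).1 hi).2
    have h2 := ((hmemLv i).1 hi2).2.2
    linarith
  -- outside P everything is below Hh
  have hnP : ∀ j, j ∉ P → u j ≤ Hh := by
    intro j hj
    by_cases hjA : j ∈ A
    · rw [hmemP] at hj
      push Not at hj
      exact (hj hjA).le
    · exact (htA' j hjA).trans htH
  obtain ⟨E0, hE0Lv, hE0k, hE0⟩ := split_top u Lv (Lv.card / 2) (by omega)
  set Lr := Lv \ E0 with hLr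
  have hmemLr : ∀ i, i ∈ Lr ↔ i ∈ Lv ∧ i ∉ E0 := by intro i; rw [hLr, Finset.mem_sdiff]
  have hLrLv : Lr ⊆ Lv := Finset.sdiff_subset
  have hLrcard : Lr.card = Lv.card - Lv.card / 2 := by
    rw [hLr, Finset.card_sdiff_of_subset hE0Lv, hE0k]
  have hE0ne : E0.Nonempty := by rw [← Finset.card_pos]; omega
  have hLrne : Lr.Nonempty := by rw [← Finset.card_pos]; omega
  have hPcard : P.card + Lv.card ≤ A.card := by
    rw [← Finset.card_union_of_disjoint hPLv]
    apply Finset.card_le_card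
    apply Finset.union_subset _ hLvA
    intro i hi
    exact ((hmemP i).1 hi).1
  have hPE0 : Disjoint P E0 := Finset.disjoint_of_subset_right hE0Lv hPLv
  have hPLr : Disjoint P Lr := Finset.disjoint_of_subset_right hLrLv hPLv
  -- lower bound on the level
  have hlev : ∀ i ∈ Lv, ∀ j, j ∉ P → j ∉ Lv → u j ≤ u i := by
    intro i hi j hj hjL
    by_cases hjA : j ∈ A
    · rw [hmemP] at hj
      push Not at hj
      rw [hmemLv] at hjL
      push Not at hjL
      have h1 := hj hjA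
      have h2 := ((hmemLv i).1 hi).2.1
      by_contra hh
      push Not at hh
      have := hjL hjA (by linarith)
      linarith
    · exact hA i (hLvA hi) j hjA
  -- first ramp
  obtain ⟨ρ1, hρ1P, hρ1B, hρ10, hρ1N⟩ := H.tb u hu P E0 hPE0 hE0ne
    (by
      intro i hi j hj
      exact (hnP j hj).trans ((hmemP i).1 hi).2)
    (by
      intro i hi j hj hjE
      by_cases hjL : j ∈ Lv
      · exact hE0 i hi j hjL hjE
      · exact hlev i (hE0Lv hi) j hj hjL)
  have hρ101 : ∀ i, 0 ≤ ρ1 i ∧ ρ1 i ≤ 1 := by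
    intro i
    by_cases h1 : i ∈ P
    · rw [hρ1P i h1]; norm_num
    · by_cases h2 : i ∈ E0
      · exact hρ1B i h2
      · rw [hρ10 i h1 h2]; norm_num
  have hE0pos : (0 : ℝ) < E0.card := by exact_mod_cast Finset.card_pos.2 hE0ne
  have hLrpos : (0 : ℝ) < Lr.card := by exact_mod_cast Finset.card_pos.2 hLrne
  have hLvpos : (0 : ℝ) < Lv.card := by
    have : 0 < Lv.card := by omega
    exact_mod_cast this
  have hbasic : 2 * P.card + Lv.card ≤ 8 * S * Lv.card := by
    calc 2 * P.card + Lv.card ≤ 2 * A.card := by omega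
      _ ≤ 2 * (4 * S * Lv.card) := by omega
      _ = 8 * S * Lv.card := by ring
  have hρ1N' : N (fun i => ρ1 i * u i) ≤ 24 * S * K * N u := by
    have h1 : (2 * (P.card : ℝ) + E0.card) ≤ 24 * S * E0.card := by
      have : 2 * P.card + E0.card ≤ 24 * S * E0.card := by
        calc 2 * P.card + E0.card ≤ 8 * S * Lv.card := by omega
          _ ≤ 8 * S * (3 * E0.card) := by
              apply Nat.mul_le_mul_left; omega
          _ = 24 * S * E0.card := by ring
      exact_mod_cast this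
    have h2 : (E0.card : ℝ) * N (fun i => ρ1 i * u i) ≤ E0.card * (24 * S * K * N u) := by
      calc (E0.card : ℝ) * N (fun i => ρ1 i * u i) ≤ K * (2 * P.card + E0.card) * N u := hρ1N
        _ ≤ K * (24 * S * E0.card) * N u := by gcongr
        _ = E0.card * (24 * S * K * N u) := by ring
    exact le_of_mul_le_mul_left h2 hE0pos
  set β : ι → ℝ := fun i => (1 - ρ1 i) * u i with hβ
  have hβ0 : ∀ i, 0 ≤ β i := fun i => mul_nonneg (by linarith [(hρ101 i).2]) (hu i)
  have hβu : ∀ i, β i ≤ u i := fun i => by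
    have := mul_nonneg (hρ101 i).1 (hu i)
    simp only [hβ]; linarith
  have hβH : ∀ i, β i ≤ Hh := by
    intro i
    by_cases h1 : i ∈ P
    · simp only [hβ]; rw [hρ1P i h1]; simp; exact hHpos.le
    · exact (hβu i).trans (hnP i h1)
  have hβeq : β = u - (fun i => ρ1 i * u i) := by
    funext i; simp only [hβ, Pi.sub_apply]; ring
  have hβN : N β ≤ (1 + 24 * S * K) * N u := by
    rw [hβeq]
    calc N (u - (fun i => ρ1 i * u i)) ≤ N u + N (fun i => ρ1 i * u i) := map_sub_le_add N _ _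
      _ ≤ _ := by linarith
  have hnu1 : ∀ C ⊆ Lr, N (flat C Hh) ≤ φ * N β := by
    intro C hC
    apply nu_aux r H β hβ0 Hh hHpos hβH C
    intro i hi
    have h1 := (hmemLr i).1 (hC hi)
    have h2 : i ∉ P := fun hh => Finset.disjoint_left.1 hPLv hh h1.1
    have h3 : β i = u i := by simp only [hβ]; rw [hρ10 i h2 h1.2]; ring
    rw [h3]
    calc (1 - 1 / (2 * K)) ^ r * Hh ≤ 1 / 2 * Hh := by gcongr
      _ = 2 ^ s * t := by rw [hHh2]; ring
      _ ≤ u i := ((hmemLv i).1 h1.1).2.1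
  -- raise Lr to height Hh
  set x1 : ι → ℝ := fun i => if i ∈ Lr then Hh else u i with hx1
  have hx1Lr : ∀ i ∈ Lr, x1 i = Hh := fun i hi => by simp only [hx1, if_pos hi]
  have hx1n : ∀ i, i ∉ Lr → x1 i = u i := fun i hi => by simp only [hx1, if_neg hi]
  have hx10 : ∀ i, 0 ≤ x1 i := by
    intro i
    by_cases h1 : i ∈ Lr
    · rw [hx1Lr i h1]; exact hHpos.le
    · rw [hx1n i h1]; exact hu i
  have hx1N : N x1 ≤ N u + φ * N β := by
    have e : x1 = u + restr Lr (fun i => Hh - u i) := by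
      funext i
      simp only [hx1, restr, Pi.add_apply]
      split_ifs <;> ring
    have h1 : N (restr Lr (fun i => Hh - u i)) ≤ φ * N β := by
      apply box_bound N Hh _ hHpos _ _ _ hnu1
      intro i hi
      have h2 := ((hmemLv i).1 (hLrLv hi)).2.2
      have h3 := hu i
      constructor <;> linarith
    rw [e]
    exact (map_add_le_add N _ _).trans (by linarith)
  have hx1nP : ∀ j, j ∉ P → x1 j ≤ Hh := by
    intro j hj
    by_cases h1 : j ∈ Lr
    · rw [hx1Lr j h1]
    · rw [hx1n j h1]; exact hnP j hj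
  obtain ⟨ρ2, hρ2P, hρ2B, hρ20, hρ2N⟩ := H.tb x1 hx10 P Lr hPLr hLrne
    (by
      intro i hi j hj
      have h1 : i ∉ Lr := fun hh => Finset.disjoint_left.1 hPLr hi hh
      rw [hx1n i h1]
      exact (hx1nP j hj).trans ((hmemP i).1 hi).2)
    (by
      intro i hi j hj _
      rw [hx1Lr i hi]
      exact hx1nP j hj)
  have hρ201 : ∀ i, 0 ≤ ρ2 i ∧ ρ2 i ≤ 1 := by
    intro i
    by_cases h1 : i ∈ P
    · rw [hρ2P i h1]; norm_num
    · by_cases h2 : i ∈ Lr
      · exact hρ2B i h2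
      · rw [hρ20 i h1 h2]; norm_num
  have hρ2N' : N (fun i => ρ2 i * x1 i) ≤ 24 * S * K * N x1 := by
    have hNx : 0 ≤ N x1 := apply_nonneg N x1
    have h1 : (2 * (P.card : ℝ) + Lr.card) ≤ 24 * S * Lr.card := by
      have : 2 * P.card + Lr.card ≤ 24 * S * Lr.card := by
        calc 2 * P.card + Lr.card ≤ 8 * S * Lv.card := by omega
          _ ≤ 8 * S * (3 * Lr.card) := by
              apply Nat.mul_le_mul_left; omega
          _ = 24 * S * Lr.card := by ring
      exact_mod_cast this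
    have h2 : (Lr.card : ℝ) * N (fun i => ρ2 i * x1 i) ≤ Lr.card * (24 * S * K * N x1) := by
      calc (Lr.card : ℝ) * N (fun i => ρ2 i * x1 i) ≤ K * (2 * P.card + Lr.card) * N x1 := hρ2N
        _ ≤ K * (24 * S * Lr.card) * N x1 := by gcongr
        _ = Lr.card * (24 * S * K * N x1) := by ring
    exact le_of_mul_le_mul_left h2 hLrpos
  set γ : ι → ℝ := fun i => (1 - ρ2 i) * x1 i with hγ
  have hγ0 : ∀ i, 0 ≤ γ i := fun i => mul_nonneg (by linarith [(hρ201 i).2]) (hx10 i)
  have hγu : ∀ i, γ i ≤ x1 i := fun i => by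
    have := mul_nonneg (hρ201 i).1 (hx10 i)
    simp only [hγ]; linarith
  have hγH : ∀ i, γ i ≤ Hh := by
    intro i
    by_cases h1 : i ∈ P
    · simp only [hγ]; rw [hρ2P i h1]; simp; exact hHpos.le
    · exact (hγu i).trans (hx1nP i h1)
  have hγeq : γ = x1 - (fun i => ρ2 i * x1 i) := by
    funext i; simp only [hγ, Pi.sub_apply]; ring
  have hγN : N γ ≤ (1 + 24 * S * K) * N x1 := by
    rw [hγeq]
    calc N (x1 - (fun i => ρ2 i * x1 i)) ≤ N x1 + N (fun i => ρ2 i * x1 i) :=
          map_sub_le_add N _ _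
      _ ≤ _ := by linarith
  have hnu2 : ∀ C ⊆ E0, N (flat C Hh) ≤ φ * N γ := by
    intro C hC
    apply nu_aux r H γ hγ0 Hh hHpos hγH C
    intro i hi
    have h0 := hC hi
    have h1 : i ∉ Lr := fun hh => ((hmemLr i).1 hh).2 h0
    have h2 : i ∉ P := fun hh => Finset.disjoint_left.1 hPLv hh (hE0Lv h0)
    have h3 : γ i = u i := by simp only [hγ]; rw [hρ20 i h2 h1, hx1n i h1]; ring
    rw [h3]
    calc (1 - 1 / (2 * K)) ^ r * Hh ≤ 1 / 2 * Hh := by gcongr
      _ = 2 ^ s * t := by rw [hHh2]; ring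
      _ ≤ u i := ((hmemLv i).1 (hE0Lv h0)).2.1
  -- control on the level
  have hSK : (0 : ℝ) ≤ 1 + 24 * S * K := by positivity
  have hPi0 : 0 ≤ PiC K φ S := PiC_nonneg (by linarith) hφ0 (by positivity)
  have hlevN : ∀ C ⊆ Lv, N (flat C Hh) ≤ PiC K φ S * N u := by
    intro C hC
    have e : flat C Hh = flat (C ∩ Lr) Hh + flat (C ∩ E0) Hh := by
      funext i
      simp only [flat, Pi.add_apply, Finset.mem_inter]
      by_cases h1 : i ∈ C
      · by_cases h2 : i ∈ E0
        · have h3 : i ∉ Lr := fun hh => ((hmemLr i).1 hh).2 h2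
          simp [h1, h2, h3]
        · have h3 : i ∈ Lr := (hmemLr i).2 ⟨hC h1, h2⟩
          simp [h1, h2, h3]
      · simp [h1]
    rw [e]
    calc N (flat (C ∩ Lr) Hh + flat (C ∩ E0) Hh)
        ≤ N (flat (C ∩ Lr) Hh) + N (flat (C ∩ E0) Hh) := map_add_le_add N _ _
      _ ≤ φ * N β + φ * N γ :=
          add_le_add (hnu1 _ Finset.inter_subset_right) (hnu2 _ Finset.inter_subset_right)
      _ ≤ φ * ((1 + 24 * S * K) * N u) +
            φ * ((1 + 24 * S * K) * (N u + φ * ((1 + 24 * S * K) * N u))) := by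
          have h1 : N x1 ≤ N u + φ * ((1 + 24 * S * K) * N u) := by
            refine hx1N.trans ?_
            gcongr
          have h2 : N γ ≤ (1 + 24 * S * K) * (N u + φ * ((1 + 24 * S * K) * N u)) := by
            refine hγN.trans ?_
            gcongr
          gcongr
      _ = PiC K φ S * N u := by unfold PiC; ring
  -- lower the level to height t
  set x3 : ι → ℝ := fun i => if i ∈ Lv then t else u i with hx3
  have hx3L : ∀ i ∈ Lv, x3 i = t := fun i hi => by simp only [hx3, if_pos hi]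
  have hx3n : ∀ i, i ∉ Lv → x3 i = u i := fun i hi => by simp only [hx3, if_neg hi]
  have hx30 : ∀ i, 0 ≤ x3 i := by
    intro i
    by_cases h1 : i ∈ Lv
    · rw [hx3L i h1]; exact ht.le
    · rw [hx3n i h1]; exact hu i
  have hx3N : N x3 ≤ (1 + PiC K φ S) * N u := by
    have e : x3 = u - restr Lv (fun i => u i - t) := by
      funext i
      simp only [hx3, restr, Pi.sub_apply]
      split_ifs <;> ring
    have h1 : N (restr Lv (fun i => u i - t)) ≤ PiC K φ S * N u := by
      apply box_bound N Hh _ hHpos _ _ _ hlevN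
      intro i hi
      have h2 := ((hmemLv i).1 hi).2.2
      have h3 := htA i (hLvA hi)
      constructor <;> linarith
    rw [e]
    exact (map_sub_le_add N _ _).trans (by linarith)
  have hLvne : Lv.Nonempty := by rw [← Finset.card_pos]; omega
  have hmemM : ∀ i, i ∈ A \ Lv ↔ i ∈ A ∧ i ∉ Lv := by intro i; rw [Finset.mem_sdiff]
  have hlow : ∀ j, j ∉ A \ Lv → x3 j ≤ t := by
    intro j hj
    by_cases h1 : j ∈ Lv
    · rw [hx3L j h1]
    · rw [hx3n j h1]
      apply htA'
      intro hh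
      exact hj ((hmemM j).2 ⟨hh, h1⟩)
  obtain ⟨ρ3, hρ3P, hρ3B, hρ30, hρ3N⟩ := H.tb x3 hx30 (A \ Lv) Lv Finset.sdiff_disjoint hLvne
    (by
      intro i hi j hj
      have h1 := (hmemM i).1 hi
      rw [hx3n i h1.2]
      exact (hlow j hj).trans (htA i h1.1))
    (by
      intro i hi j hj _
      rw [hx3L i hi]
      exact hlow j hj)
  have hρ3N' : N (fun i => ρ3 i * x3 i) ≤ 8 * S * K * ((1 + PiC K φ S) * N u) := by
    have hNx : 0 ≤ N x3 := apply_nonneg N x3
    have h1 : (2 * ((A \ Lv).card : ℝ) + Lv.card) ≤ 8 * S * Lv.card := by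
      have : 2 * (A \ Lv).card + Lv.card ≤ 8 * S * Lv.card := by
        rw [Finset.card_sdiff_of_subset hLvA]
        calc 2 * (A.card - Lv.card) + Lv.card ≤ 2 * A.card := by
              have := Finset.card_le_card hLvA
              omega
          _ ≤ 2 * (4 * S * Lv.card) := by omega
          _ = 8 * S * Lv.card := by ring
      exact_mod_cast this
    have h2 : (Lv.card : ℝ) * N (fun i => ρ3 i * x3 i) ≤ Lv.card * (8 * S * K * N x3) := by
      calc (Lv.card : ℝ) * N (fun i => ρ3 i * x3 i)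
          ≤ K * (2 * (A \ Lv).card + Lv.card) * N x3 := hρ3N
        _ ≤ K * (8 * S * Lv.card) * N x3 := by gcongr
        _ = Lv.card * (8 * S * K * N x3) := by ring
    have h3 := le_of_mul_le_mul_left h2 hLvpos
    calc _ ≤ 8 * S * K * N x3 := h3
      _ ≤ _ := by gcongr
  have hR1 : N (restr Lv (fun i => ρ3 i * t)) ≤ PiC K φ S * N u := by
    apply box_bound N Hh _ hHpos _ _ _ hlevN
    intro i hi
    have h1 := hρ3B i hi
    constructor
    · exact mul_nonneg h1.1 ht.le
    · nlinarith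
  have hR2 : N (restr (A \ Lv) u) ≤ 8 * S * K * ((1 + PiC K φ S) * N u) + PiC K φ S * N u := by
    have e : restr (A \ Lv) u = (fun i => ρ3 i * x3 i) - restr Lv (fun i => ρ3 i * t) := by
      funext i
      simp only [restr, Pi.sub_apply]
      by_cases h1 : i ∈ Lv
      · have h2 : i ∉ A \ Lv := fun hh => ((hmemM i).1 hh).2 h1
        simp only [h1, h2, if_true, if_false, hx3L i h1]; ring
      · by_cases h2 : i ∈ A \ Lv
        · simp only [h1, h2, if_true, if_false, hx3n i h1, hρ3P i h2]; ring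
        · simp only [h1, h2, if_false, hρ30 i h2 h1]; ring
    rw [e]
    exact (map_sub_le_add N _ _).trans (add_le_add hρ3N' hR1)
  have hR3 : N (restr Lv u) ≤ PiC K φ S * N u := by
    apply box_bound N Hh _ hHpos _ _ _ hlevN
    intro i hi
    exact ⟨hu i, ((hmemLv i).1 hi).2.2.le⟩
  have e : restr A u = restr (A \ Lv) u + restr Lv u := by
    funext i
    simp only [restr, Pi.add_apply]
    by_cases h1 : i ∈ Lv
    · have h2 : i ∉ A \ Lv := fun hh => ((hmemM i).1 hh).2 h1
      simp only [h1, h2, hLvA h1, if_true, if_false]; ring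
    · by_cases h2 : i ∈ A
      · have h3 : i ∈ A \ Lv := (hmemM i).2 ⟨h2, h1⟩
        simp only [h1, h2, h3, if_true, if_false]; ring
      · have h3 : i ∉ A \ Lv := fun hh => h2 ((hmemM i).1 hh).1
        simp only [h1, h2, h3, if_false]; ring
  rw [e]
  calc N (restr (A \ Lv) u + restr Lv u) ≤ N (restr (A \ Lv) u) + N (restr Lv u) :=
        map_add_le_add N _ _
    _ ≤ (8 * S * K * ((1 + PiC K φ S) * N u) + PiC K φ S * N u) + PiC K φ S * N u :=
        add_le_add hR2 hR3
    _ = _ := by ring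

end Pool.Agent.Lib.MP_d7aa4b_an
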