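import Pool.Agent.Lib.MP_d7aa4b_an.Final
import Pool.Agent.Lib.MP_d7aa4b_an.Orders

namespace Pool.Agent.Lib.MP_d7aa4b_an

open Filter Topology Finset

variable {𝕜 : Type*} [RCLike 𝕜] {X : Type*} [NormedAddCommGroup X] [NormedSpace 𝕜 X]
variable {e : ℕ → X} {f : ℕ → X →L[𝕜] 𝕜}

lemma coord_proj (hb : ∀ i j, f i (e j) = if i = j then 1 else 0) (s : Finset ℕ) (x : X) (n : ℕ) :
    f n (proj e f s x) = if n ∈ s then f n x else 0 := by
  classical
  simp only [proj, map_sum, map_smul, hb, smul_eq_mul, mul_ite, mul_one, mul_zero]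
  rw [Finset.sum_ite_eq]

/-- the un-normalised Cesaro sums -/
noncomputable def cSum (e : ℕ → X) (f : ℕ → X →L[𝕜] 𝕜) (x : X) (k : ℕ → ℕ) (m : ℕ) : X :=
  ∑ n ∈ Finset.range m, greedySum e f x k (n + 1)

/-- uniform bound for the de la Vallee-Poussin sums of finitely supported vectors -/
def UV (e : ℕ → X) (f : ℕ → X →L[𝕜] 𝕜) (KV : ℝ) : Prop :=
  0 ≤ KV ∧ ∀ (x : X) (s : Finset ℕ), proj e f s x = x → ∀ k : ℕ → ℕ, IsGreedyOrdering f x k →
    ∀ m : ℕ, ‖∑ n ∈ Finset.range m, greedySum e f x k (m + n + 1)‖ ≤ KV * m * ‖x‖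

lemma term_le {c : ℝ} (he : ∀ n, ‖e n‖ ≤ c) (hf : ∀ n, ‖f n‖ ≤ c) (hc : 1 ≤ c) (x : X) (n : ℕ) :
    ‖f n x • e n‖ ≤ c * c * ‖x‖ := by
  rw [norm_smul]
  have h1 : ‖f n x‖ ≤ c * ‖x‖ := ((f n).le_opNorm x).trans (by gcongr; exact hf n)
  calc ‖f n x‖ * ‖e n‖ ≤ (c * ‖x‖) * c := by gcongr; exact he n
    _ = _ := by ring

lemma greedySum_le {c : ℝ} (he : ∀ n, ‖e n‖ ≤ c) (hf : ∀ n, ‖f n‖ ≤ c) (hc : 1 ≤ c) (x : X)
    (k : ℕ → ℕ) (m : ℕ) : ‖greedySum e f x k m‖ ≤ m * (c * c) * ‖x‖ := by
  unfold greedySum
  calc ‖∑ j ∈ Finset.range m, f (k j) x • e (k j)‖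
      ≤ ∑ j ∈ Finset.range m, ‖f (k j) x • e (k j)‖ := norm_sum_le _ _
    _ ≤ ∑ j ∈ Finset.range m, c * c * ‖x‖ := Finset.sum_le_sum (fun j _ => term_le he hf hc x _)
    _ = m * (c * c) * ‖x‖ := by rw [Finset.sum_const, Finset.card_range, nsmul_eq_mul]; ring

lemma cSum_bound {c KV : ℝ} (he : ∀ n, ‖e n‖ ≤ c) (hf : ∀ n, ‖f n‖ ≤ c) (hc : 1 ≤ c)
    (hUV : UV e f KV) (x : X) (s : Finset ℕ) (hs : proj e f s x = x) (k : ℕ → ℕ)
    (hk : IsGreedyOrdering f x k) (m : ℕ) :
    ‖cSum e f x k m‖ ≤ (KV + 3 * (c * c)) * m * ‖x‖ := by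
  have hKV := hUV.1
  have hcc : 1 ≤ c * c := by nlinarith
  have hx : 0 ≤ ‖x‖ := norm_nonneg x
  induction m using Nat.strong_induction_on with
  | _ m ih =>
    rcases Nat.even_or_odd' m with ⟨r, hr | hr⟩
    · rcases Nat.eq_zero_or_pos r with h0 | h0
      · subst h0; simp at hr; subst hr; simp [cSum]
      · have h1 := ih r (by omega)
        have h2 := hUV.2 x s hs k hk r
        have e1 : cSum e f x k m = cSum e f x k r +
            ∑ n ∈ Finset.range r, greedySum e f x k (r + n + 1) := by
          unfold cSum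
          rw [hr, two_mul, Finset.sum_range_add]
        rw [e1]
        calc _ ≤ (KV + 3 * (c * c)) * r * ‖x‖ + KV * r * ‖x‖ :=
              (norm_add_le _ _).trans (add_le_add h1 h2)
          _ ≤ (KV + 3 * (c * c)) * m * ‖x‖ := by
              rw [hr]; push_cast
              have : 0 ≤ 3 * (c * c) * r * ‖x‖ := by positivity
              nlinarith
    · rcases Nat.eq_zero_or_pos r with h0 | h0
      · subst h0; simp at hr; subst hr
        unfold cSum
        simp only [Finset.sum_range_one]
        refine (greedySum_le he hf hc x k _).trans ?_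
        push_cast
        have : 0 ≤ (c * c) * ‖x‖ := by positivity
        have : 0 ≤ KV * ‖x‖ := by positivity
        nlinarith
      · have h1 := ih r (by omega)
        have h2 := hUV.2 x s hs k hk r
        have h3 := greedySum_le he hf hc x k (2 * r + 1)
        have e1 : cSum e f x k m = (cSum e f x k r +
            ∑ n ∈ Finset.range r, greedySum e f x k (r + n + 1)) +
            greedySum e f x k (2 * r + 1) := by
          unfold cSum
          rw [hr, Finset.sum_range_succ, two_mul, Finset.sum_range_add]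
        rw [e1]
        calc _ ≤ ((KV + 3 * (c * c)) * r * ‖x‖ + KV * r * ‖x‖) +
              ((2 * r + 1 : ℕ) : ℝ) * (c * c) * ‖x‖ :=
              (norm_add_le _ _).trans (add_le_add ((norm_add_le _ _).trans (add_le_add h1 h2)) h3)
          _ ≤ (KV + 3 * (c * c)) * m * ‖x‖ := by
              rw [hr]; push_cast
              have h4 : 0 ≤ (c * c) * r * ‖x‖ := by positivity
              have h5 : 0 ≤ KV * ‖x‖ := by positivity
              have h6 : 0 ≤ (c * c) * ‖x‖ := by positivity
              nlinarith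

/-- the vector with coefficients `u i * ε i` on `s` -/
noncomputable def vec (e : ℕ → X) (s : Finset ℕ) (ε : s → 𝕜) (u : s → ℝ) : X :=
  ∑ i : s, (((u i : ℝ) : 𝕜) * ε i) • e i

lemma vec_add (s : Finset ℕ) (ε : s → 𝕜) (u v : s → ℝ) :
    vec e s ε (u + v) = vec e s ε u + vec e s ε v := by
  simp only [vec, Pi.add_apply, RCLike.ofReal_add, add_mul, add_smul, Finset.sum_add_distrib]

lemma vec_smul (s : Finset ℕ) (ε : s → 𝕜) (a : ℝ) (u : s → ℝ) :
    vec e s ε (a • u) = (a : 𝕜) • vec e s ε u := by
  simp only [vec, Pi.smul_apply, smul_eq_mul, RCLike.ofReal_mul, Finset.smul_sum, smul_smul,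
    mul_assoc]

/-- the seminorm on real functions on `s` -/
noncomputable def semi (e : ℕ → X) (s : Finset ℕ) (ε : s → 𝕜) : Seminorm ℝ (s → ℝ) :=
  Seminorm.of (fun u => ‖vec e s ε u‖)
    (by intro u v; rw [vec_add]; exact norm_add_le _ _)
    (by intro a u; rw [vec_smul, norm_smul, RCLike.norm_ofReal, Real.norm_eq_abs])

lemma semi_apply (s : Finset ℕ) (ε : s → 𝕜) (u : s → ℝ) : semi e s ε u = ‖vec e s ε u‖ := rfl

lemma coord_vec (hb : ∀ i j, f i (e j) = if i = j then 1 else 0) (s : Finset ℕ) (ε : s → 𝕜)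
    (u : s → ℝ) (i : s) : f i (vec e s ε u) = ((u i : ℝ) : 𝕜) * ε i := by
  classical
  simp only [vec, map_sum, map_smul, hb, smul_eq_mul]
  rw [Finset.sum_eq_single i]
  · simp
  · intro j _ hji
    have : ¬ ((i : ℕ) = j) := fun h => hji (Subtype.ext h.symm)
    simp [this]
  · simp

lemma coord_vec_out (hb : ∀ i j, f i (e j) = if i = j then 1 else 0) (s : Finset ℕ) (ε : s → 𝕜)
    (u : s → ℝ) (n : ℕ) (hn : n ∉ s) : f n (vec e s ε u) = 0 := by
  classical
  simp only [vec, map_sum, map_smul, hb, smul_eq_mul]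
  apply Finset.sum_eq_zero
  intro j _
  have : ¬ (n = (j : ℕ)) := fun h => hn (h ▸ j.2)
  simp [this]

lemma proj_eq_of_out (s : Finset ℕ) (ε : s → 𝕜) (u : s → ℝ)
    (hb : ∀ i j, f i (e j) = if i = j then 1 else 0) :
    proj e f s (vec e s ε u) = vec e s ε u := by
  classical
  unfold proj
  rw [← Finset.sum_coe_sort s (fun n => f n (vec e s ε u) • e n)]
  simp only [coord_vec hb]
  rfl

lemma greedySum_vec (hb : ∀ i j, f i (e j) = if i = j then 1 else 0) (s : Finset ℕ) (ε : s → 𝕜)
    (u : s → ℝ) (k : ℕ → ℕ) (hk : Function.Injective k) (m : ℕ) :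
    greedySum e f (vec e s ε u) k m =
      vec e s ε (fun i => if (i : ℕ) ∈ (Finset.range m).image k then u i else 0) := by
  classical
  unfold greedySum
  rw [← Finset.sum_image (s := Finset.range m) (g := k)
    (f := fun n => f n (vec e s ε u) • e n) (fun a _ b _ h => hk h)]
  have h1 : ∑ n ∈ (Finset.range m).image k, f n (vec e s ε u) • e n
      = ∑ n ∈ s, if n ∈ (Finset.range m).image k then f n (vec e s ε u) • e n else 0 := by
    rw [← Finset.sum_filter]
    have h2 : s.filter (fun n => n ∈ (Finset.range m).image k) ⊆ (Finset.range m).image k := by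
      intro n hn; exact (Finset.mem_filter.1 hn).2
    symm
    apply Finset.sum_subset h2
    intro n hn hn2
    have : n ∉ s := fun h => hn2 (Finset.mem_filter.2 ⟨h, hn⟩)
    rw [coord_vec_out hb s ε u n this, zero_smul]
  rw [h1, ← Finset.sum_coe_sort s]
  unfold vec
  apply Finset.sum_congr rfl
  intro i _
  have := coord_vec hb s ε u i
  unfold vec at this
  by_cases h : (i : ℕ) ∈ (Finset.range m).image k
  · simp only [if_pos h]
    rw [this]
  · simp only [if_neg h]
    simp


lemma sum_sum_range (T : ℕ → X) (m : ℕ) :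
    ∑ n ∈ Finset.range m, ∑ j ∈ Finset.range (n + 1), T j
      = ∑ j ∈ Finset.range m, ((m - j : ℕ) : ℕ) • T j := by
  induction m with
  | zero => simp
  | succ m ih =>
    rw [Finset.sum_range_succ, ih, Finset.sum_range_succ, Finset.sum_range_succ]
    have h1 : ∑ j ∈ Finset.range m, (m + 1 - j) • T j
        = ∑ j ∈ Finset.range m, (m - j) • T j + ∑ j ∈ Finset.range m, T j := by
      rw [← Finset.sum_add_distrib]
      apply Finset.sum_congr rfl
      intro j hj
      rw [Finset.mem_range] at hj
      have : m + 1 - j = (m - j) + 1 := by omega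
      rw [this, add_smul, one_smul]
    rw [h1]
    have : m + 1 - m = 1 := by omega
    rw [this, one_smul]
    abel

/-- The hypotheses of the finite dimensional core hold. -/
lemma hyp_of_uv {c KV : ℝ} (hb : ∀ i j, f i (e j) = if i = j then 1 else 0)
    (he : ∀ n, ‖e n‖ ≤ c) (hf : ∀ n, ‖f n‖ ≤ c) (hc : 1 ≤ c)
    (hUV : UV e f KV) (s : Finset ℕ) (ε : s → 𝕜) (hε : ∀ i, ‖ε i‖ = 1) :
    Hyp (semi e s ε) (2 * (KV + 3 * (c * c))) c := by
  classical
  have hKV := hUV.1
  have hcc : 1 ≤ c * c := by nlinarith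
  have hnorm : ∀ u : s → ℝ, (∀ i, 0 ≤ u i) → ∀ i : s, ‖f i (vec e s ε u)‖ = u i := by
    intro u hu i
    rw [coord_vec hb, norm_mul, hε, RCLike.norm_ofReal, abs_of_nonneg (hu i), mul_one]
  have hout : ∀ u : s → ℝ, ∀ n, n ∉ s → f n (vec e s ε u) = 0 :=
    fun u n hn => coord_vec_out hb s ε u n hn
  constructor
  · linarith
  · exact hc
  · -- coord
    intro u i
    rw [semi_apply]
    have h1 : ‖f i (vec e s ε u)‖ = |u i| := by
      rw [coord_vec hb, norm_mul, hε, RCLike.norm_ofReal, mul_one]
    rw [← h1]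
    exact ((f i).le_opNorm _).trans (by gcongr; exact hf _)
  · -- single
    intro i
    rw [semi_apply]
    have h1 : vec e s ε (flat {i} 1) = ε i • e i := by
      unfold vec
      rw [Finset.sum_eq_single i]
      · simp [flat]
      · intro j _ hji; simp [flat, hji]
      · simp
    rw [h1, norm_smul, hε, one_mul]
    exact he _
  · -- tb
    intro u hu P B hdisj hBne hP hB
    set y := vec e s ε u with hy
    let P' : Finset ℕ := P.map (Function.Embedding.subtype _)
    let B' : Finset ℕ := B.map (Function.Embedding.subtype _)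
    have hmemP' : ∀ n, n ∈ P' ↔ ∃ i ∈ P, (i : ℕ) = n := by intro n; simp [P']
    have hmemB' : ∀ n, n ∈ B' ↔ ∃ i ∈ B, (i : ℕ) = n := by intro n; simp [B']
    obtain ⟨l1, hl1nd, hl1mem, hl1pw, hl1len⟩ := exists_sorted (fun n => ‖f n y‖) P'
    obtain ⟨l2, hl2nd, hl2mem, hl2pw, hl2len⟩ := exists_sorted (fun n => ‖f n y‖) B'
    have hP'card : P'.card = P.card := Finset.card_map _
    have hB'card : B'.card = B.card := Finset.card_map _
    -- comparison
    have hcmp1 : ∀ i ∈ P, ∀ n, n ∉ P' → ‖f n y‖ ≤ ‖f i y‖ := by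
      intro i hi n hn
      by_cases hns : n ∈ s
      · have h1 : (⟨n, hns⟩ : s) ∉ P := fun hh => hn ((hmemP' n).2 ⟨_, hh, rfl⟩)
        have h2 := hP i hi _ h1
        rw [hnorm u hu i]
        have h3 := hnorm u hu ⟨n, hns⟩
        simp only at h3
        rw [h3]; exact h2
      · rw [hout u n hns]; simp
    have hcmp2 : ∀ i ∈ B, ∀ n, n ∉ P' → n ∉ B' → ‖f n y‖ ≤ ‖f i y‖ := by
      intro i hi n hn hn2
      by_cases hns : n ∈ s
      · have h1 : (⟨n, hns⟩ : s) ∉ P := fun hh => hn ((hmemP' n).2 ⟨_, hh, rfl⟩)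
        have h1' : (⟨n, hns⟩ : s) ∉ B := fun hh => hn2 ((hmemB' n).2 ⟨_, hh, rfl⟩)
        have h2 := hB i hi _ h1 h1'
        rw [hnorm u hu i]
        have h3 := hnorm u hu ⟨n, hns⟩
        simp only at h3
        rw [h3]; exact h2
      · rw [hout u n hns]; simp
    have hdisj' : ∀ n, n ∈ P' → n ∈ B' → False := by
      intro n h1 h2
      obtain ⟨i, hi, rfl⟩ := (hmemP' n).1 h1
      obtain ⟨j, hj, hij⟩ := (hmemB' _).1 h2
      have : j = i := Subtype.ext hij
      subst this
      exact Finset.disjoint_left.1 hdisj hi hj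
    obtain ⟨k, hk, hkl⟩ := exists_ordering (y := y) (fun n hn => hout u n hn) (l1 ++ l2)
      (by
        rw [List.nodup_append]
        refine ⟨hl1nd, hl2nd, ?_⟩
        intro a ha b hb2 hab
        subst hab
        exact hdisj' a ((hl1mem a).1 ha) ((hl2mem a).1 hb2))
      (by
        rw [List.pairwise_append]
        refine ⟨hl1pw, hl2pw, ?_⟩
        intro a ha b hb2
        obtain ⟨i, hi, rfl⟩ := (hmemP' a).1 ((hl1mem a).1 ha)
        exact hcmp1 i hi b (fun hh => hdisj' b hh ((hl2mem b).1 hb2)))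
      (by
        intro n hn a ha
        rw [List.mem_append] at hn ha
        push Not at hn
        rw [hl1mem, hl2mem] at hn
        rcases ha with ha | ha
        · obtain ⟨i, hi, rfl⟩ := (hmemP' a).1 ((hl1mem a).1 ha)
          exact hcmp1 i hi n hn.1
        · obtain ⟨i, hi, rfl⟩ := (hmemB' a).1 ((hl2mem a).1 ha)
          exact hcmp2 i hi n hn.1 hn.2)
    set p := P.card with hp
    set q := B.card with hq
    have hl1p : l1.length = p := by rw [hl1len, hP'card]
    have hl2q : l2.length = q := by rw [hl2len, hB'card]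
    have hqpos : 0 < q := Finset.card_pos.2 hBne
    have hqpos' : (0 : ℝ) < q := by exact_mod_cast hqpos
    let ind : ℕ → s → ℝ := fun n i => if (i : ℕ) ∈ (Finset.range (p + n + 1)).image k then 1 else 0
    let ρ : s → ℝ := fun i => (1 / (q : ℝ)) * ∑ n ∈ Finset.range q, ind n i
    have hind01 : ∀ n i, 0 ≤ ind n i ∧ ind n i ≤ 1 := by
      intro n i; simp only [ind]; split_ifs <;> norm_num
    refine ⟨ρ, ?_, ?_, ?_, ?_⟩
    · intro i hi
      have h1 : ∀ n ∈ Finset.range q, ind n i = 1 := by
        intro n hn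
        have h2 : (i : ℕ) ∈ l1 := (hl1mem _).2 ((hmemP' _).2 ⟨i, hi, rfl⟩)
        obtain ⟨j, hj, hji⟩ := List.getElem_of_mem h2
        simp only [ind]
        rw [if_pos]
        rw [Finset.mem_image]
        refine ⟨j, ?_, ?_⟩
        · rw [Finset.mem_range]; omega
        · rw [hkl j (by rw [List.length_append]; omega), List.getElem_append_left hj, hji]
      simp only [ρ]
      rw [Finset.sum_congr rfl h1]
      simp only [Finset.sum_const, Finset.card_range, nsmul_eq_mul, mul_one]
      field_simp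
    · intro i _
      simp only [ρ]
      constructor
      · exact mul_nonneg (by positivity) (Finset.sum_nonneg (fun n _ => (hind01 n i).1))
      · have h1 : ∑ n ∈ Finset.range q, ind n i ≤ ∑ n ∈ Finset.range q, (1 : ℝ) :=
          Finset.sum_le_sum (fun n _ => (hind01 n i).2)
        simp only [Finset.sum_const, Finset.card_range, nsmul_eq_mul, mul_one] at h1
        calc (1 / (q : ℝ)) * ∑ n ∈ Finset.range q, ind n i ≤ (1 / (q : ℝ)) * q := by gcongr
          _ = 1 := by field_simp
    · intro i hiP hiB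
      have h1 : ∀ n ∈ Finset.range q, ind n i = 0 := by
        intro n hn
        rw [Finset.mem_range] at hn
        simp only [ind]
        rw [if_neg]
        intro hh
        rw [Finset.mem_image] at hh
        obtain ⟨j, hj, hji⟩ := hh
        rw [Finset.mem_range] at hj
        have hjl : j < (l1 ++ l2).length := by rw [List.length_append]; omega
        rw [hkl j hjl] at hji
        have h3 : (i : ℕ) ∈ l1 ++ l2 := hji ▸ List.getElem_mem hjl
        rw [List.mem_append, hl1mem, hl2mem, hmemP', hmemB'] at h3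
        rcases h3 with ⟨i', hi', h4⟩ | ⟨i', hi', h4⟩
        · exact hiP (Subtype.ext h4 ▸ hi')
        · exact hiB (Subtype.ext h4 ▸ hi')
      simp only [ρ]
      rw [Finset.sum_congr rfl h1]
      simp
    · -- the norm bound
      have hproj : proj e f s y = y := proj_eq_of_out s ε u hb
      have hS1 := cSum_bound he hf hc hUV y s hproj k hk (p + q)
      have hS2 := cSum_bound he hf hc hUV y s hproj k hk p
      have h1 : cSum e f y k (p + q) - cSum e f y k p
          = ∑ n ∈ Finset.range q, greedySum e f y k (p + n + 1) := by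
        unfold cSum
        rw [Finset.sum_range_add, add_sub_cancel_left]
      have h2 : ∑ n ∈ Finset.range q, greedySum e f y k (p + n + 1)
          = vec e s ε ((q : ℝ) • (fun i => ρ i * u i)) := by
        have h3 : ∀ n, greedySum e f y k (p + n + 1) = vec e s ε (fun i => ind n i * u i) := by
          intro n
          rw [hy, greedySum_vec hb s ε u k hk.injective]
          congr 1
          funext i
          simp only [ind]
          split_ifs <;> simp
        simp only [h3]
        have h4 : ∀ t : Finset ℕ, ∑ n ∈ t, vec e s ε (fun i => ind n i * u i)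
            = vec e s ε (∑ n ∈ t, (fun i => ind n i * u i)) := by
          intro t
          induction t using Finset.induction_on with
          | empty =>
            simp only [Finset.sum_empty]
            simp [vec]
          | insert a t ha ih => rw [Finset.sum_insert ha, Finset.sum_insert ha, ih, vec_add]
        rw [h4]
        congr 1
        funext i
        simp only [Finset.sum_apply, Pi.smul_apply, smul_eq_mul, ρ]
        rw [← Finset.sum_mul]
        field_simp
      have h5 : (q : ℝ) * semi e s ε (fun i => ρ i * u i)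
          = ‖cSum e f y k (p + q) - cSum e f y k p‖ := by
        rw [h1, h2, vec_smul, norm_smul, RCLike.norm_ofReal, abs_of_pos hqpos', semi_apply]
      rw [h5, semi_apply, ← hy]
      have hyn : 0 ≤ ‖y‖ := norm_nonneg y
      calc ‖cSum e f y k (p + q) - cSum e f y k p‖
          ≤ (KV + 3 * (c * c)) * (p + q : ℕ) * ‖y‖ + (KV + 3 * (c * c)) * p * ‖y‖ :=
            (norm_sub_le _ _).trans (add_le_add hS1 hS2)
        _ = (KV + 3 * (c * c)) * (2 * p + q) * ‖y‖ := by push_cast; ring
        _ ≤ 2 * (KV + 3 * (c * c)) * (2 * p + q) * ‖y‖ := by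
            gcongr
            linarith
  · -- flat
    intro u hu A s0 hA hus
    set y := vec e s ε u with hy
    let A' : Finset ℕ := A.map (Function.Embedding.subtype _)
    have hmemA' : ∀ n, n ∈ A' ↔ ∃ i ∈ A, (i : ℕ) = n := by intro n; simp [A']
    rcases A.eq_empty_or_nonempty with hAe | hAne
    · subst hAe
      have e1 : (flat ∅ s0 : s → ℝ) = 0 := by funext i; simp [flat]
      rw [e1, map_zero]
      exact mul_nonneg (by linarith) (apply_nonneg _ _)
    have hs0 : 0 ≤ s0 := by
      obtain ⟨i, hi⟩ := hAne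
      rw [← hA i hi]; exact hu i
    have hall : ∀ a ∈ A', ‖f a y‖ = s0 := by
      intro a ha
      obtain ⟨i, hi, rfl⟩ := (hmemA' a).1 ha
      rw [hnorm u hu i, hA i hi]
    have hle : ∀ n, ‖f n y‖ ≤ s0 := by
      intro n
      by_cases hns : n ∈ s
      · have h3 := hnorm u hu ⟨n, hns⟩
        simp only at h3
        rw [h3]; exact hus _
      · rw [hout u n hns]; simpa using hs0
    set l := A'.toList with hl
    have hlmem : ∀ n, n ∈ l ↔ n ∈ A' := by intro n; rw [hl, Finset.mem_toList]
    have hpw : ∀ l' : List ℕ, (∀ n, n ∈ l' ↔ n ∈ A') →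
        l'.Pairwise (fun a b => ‖f b y‖ ≤ ‖f a y‖) := by
      intro l' hl'
      rw [List.pairwise_iff_getElem]
      intro i j hi hj _
      rw [hall _ ((hl' _).1 (List.getElem_mem hi)), hall _ ((hl' _).1 (List.getElem_mem hj))]
    obtain ⟨k, hk, hkl⟩ := exists_ordering (y := y) (fun n hn => hout u n hn) l
      (Finset.nodup_toList _) (hpw l hlmem)
      (by intro n _ a ha; rw [hall a ((hlmem a).1 ha)]; exact hle n)
    have hlrmem : ∀ n, n ∈ l.reverse ↔ n ∈ A' := by intro n; rw [List.mem_reverse, hlmem]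
    obtain ⟨k', hk', hkl'⟩ := exists_ordering (y := y) (fun n hn => hout u n hn) l.reverse
      (List.nodup_reverse.2 (Finset.nodup_toList _)) (hpw _ hlrmem)
      (by intro n _ a ha; rw [hall a ((hlrmem a).1 ha)]; exact hle n)
    set m := l.length with hm
    have hmA : m = A.card := by rw [hm, hl, Finset.length_toList, Finset.card_map]
    have hmpos : 0 < m := by rw [hmA]; exact Finset.card_pos.2 hAne
    have hproj : proj e f s y = y := proj_eq_of_out s ε u hb
    have hS1 := cSum_bound he hf hc hUV y s hproj k hk m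
    have hS2 := cSum_bound he hf hc hUV y s hproj k' hk' m
    set T : ℕ → X := fun j => f (k j) y • e (k j) with hT
    set T' : ℕ → X := fun j => f (k' j) y • e (k' j) with hT'
    have hTT' : ∀ j, j < m → T' j = T (m - 1 - j) := by
      intro j hj
      have h1 : k' j = k (m - 1 - j) := by
        rw [hkl' j (by rw [List.length_reverse]; exact hj), hkl (m - 1 - j) (by omega),
          List.getElem_reverse]
      simp only [hT, hT', h1]
    have h1 : cSum e f y k m = ∑ j ∈ Finset.range m, (m - j) • T j := by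
      unfold cSum greedySum
      exact sum_sum_range T m
    have h2 : cSum e f y k' m = ∑ j ∈ Finset.range m, (j + 1) • T j := by
      have h3 : cSum e f y k' m = ∑ j ∈ Finset.range m, (m - j) • T' j := by
        unfold cSum greedySum
        exact sum_sum_range T' m
      rw [h3, ← Finset.sum_range_reflect (fun j => (j + 1) • T j)]
      apply Finset.sum_congr rfl
      intro j hj
      rw [Finset.mem_range] at hj
      rw [hTT' j hj]
      congr 1
      omega
    have h3 : cSum e f y k m + cSum e f y k' m = (m + 1) • ∑ j ∈ Finset.range m, T j := by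
      rw [h1, h2, ← Finset.sum_add_distrib, Finset.smul_sum]
      apply Finset.sum_congr rfl
      intro j hj
      rw [Finset.mem_range] at hj
      rw [← add_smul]
      congr 1
      omega
    have h4 : ∑ j ∈ Finset.range m, T j = vec e s ε (flat A s0) := by
      have h5 : ∑ j ∈ Finset.range m, T j = greedySum e f y k m := rfl
      rw [h5, hy, greedySum_vec hb s ε u k hk.injective]
      congr 1
      funext i
      simp only [flat]
      have h6 : (i : ℕ) ∈ (Finset.range m).image k ↔ i ∈ A := by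
        rw [Finset.mem_image]
        constructor
        · rintro ⟨j, hj, hji⟩
          rw [Finset.mem_range] at hj
          rw [hkl j hj] at hji
          have h7 : (i : ℕ) ∈ l := hji ▸ List.getElem_mem hj
          rw [hlmem, hmemA'] at h7
          obtain ⟨i', hi', h8⟩ := h7
          exact Subtype.ext h8 ▸ hi'
        · intro hi
          have h7 : (i : ℕ) ∈ l := (hlmem _).2 ((hmemA' _).2 ⟨i, hi, rfl⟩)
          obtain ⟨j, hj, hji⟩ := List.getElem_of_mem h7
          exact ⟨j, by rw [Finset.mem_range]; exact hj, by rw [hkl j hj, hji]⟩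
      by_cases hi : i ∈ A
      · rw [if_pos (h6.2 hi), if_pos hi, hA i hi]
      · rw [if_neg (fun hh => hi (h6.1 hh)), if_neg hi]
    rw [h4] at h3
    rw [semi_apply, semi_apply, ← hy]
    have hyn : 0 ≤ ‖y‖ := norm_nonneg y
    have h5 : ((m : ℝ) + 1) * ‖vec e s ε (flat A s0)‖
        ≤ ((m : ℝ) + 1) * (2 * (KV + 3 * (c * c)) * ‖y‖) := by
      calc ((m : ℝ) + 1) * ‖vec e s ε (flat A s0)‖
          = ‖(m + 1) • vec e s ε (flat A s0)‖ := by
            rw [← Nat.cast_smul_eq_nsmul 𝕜, norm_smul]
            congr 1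
            rw [RCLike.norm_natCast]; push_cast; ring
        _ = ‖cSum e f y k m + cSum e f y k' m‖ := by rw [h3]
        _ ≤ (KV + 3 * (c * c)) * m * ‖y‖ + (KV + 3 * (c * c)) * m * ‖y‖ :=
            (norm_add_le _ _).trans (add_le_add hS1 hS2)
        _ = (m : ℝ) * (2 * (KV + 3 * (c * c)) * ‖y‖) := by ring
        _ ≤ ((m : ℝ) + 1) * (2 * (KV + 3 * (c * c)) * ‖y‖) := by
            gcongr
            linarith
    exact le_of_mul_le_mul_left h5 (by positivity)

end Pool.Agent.Lib.MP_d7aa4b_an
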